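import Mathlib

/-!
Moment bounds for `∏_{p ∣ t} (1 + 1/p)`.
-/

set_option autoImplicit false

open Finset

namespace Pool.Agent.H75.PS

theorem prod_le_sum_divisors (t : ℕ) (ht : 0 < t) :
    ∏ p ∈ t.primeFactors, (1 + 1 / (p : ℝ)) ≤ ∑ d ∈ t.divisors, 1 / (d : ℝ) := by
  classical
  rw [Finset.prod_one_add]
  have hinj : Set.InjOn (fun A : Finset ℕ => ∏ p ∈ A, p)
      ((t.primeFactors.powerset : Finset (Finset ℕ)) : Set (Finset ℕ)) := by
    intro A hA B hB hAB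
    simp only [Finset.coe_powerset, Set.mem_preimage, Set.mem_powerset_iff,
      Finset.coe_subset] at hA hB
    have h1 : (∏ p ∈ A, p).primeFactors = A :=
      Nat.primeFactors_prod (fun p hp => Nat.prime_of_mem_primeFactors (hA hp))
    have h2 : (∏ p ∈ B, p).primeFactors = B :=
      Nat.primeFactors_prod (fun p hp => Nat.prime_of_mem_primeFactors (hB hp))
    simp only at hAB
    rw [← h1, ← h2, hAB]
  have h3 : ∀ A ∈ t.primeFactors.powerset, ∏ p ∈ A, (1 / (p : ℝ)) =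
      1 / ((∏ p ∈ A, p : ℕ) : ℝ) := by
    intro A _
    rw [Finset.prod_div_distrib, Finset.prod_const_one, Nat.cast_prod]
  rw [Finset.sum_congr rfl h3, ← Finset.sum_image (f := fun d : ℕ => 1 / (d : ℝ)) hinj]
  apply Finset.sum_le_sum_of_subset_of_nonneg
  · intro l hl
    rw [Finset.mem_image] at hl
    obtain ⟨A, hA, rfl⟩ := hl
    rw [Finset.mem_powerset] at hA
    rw [Nat.mem_divisors]
    refine ⟨?_, ht.ne'⟩
    exact (Finset.prod_dvd_prod_of_subset _ _ _ hA).trans (Nat.prod_primeFactors_dvd t)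
  · intro l _ _
    positivity

/-- the constant `ζ(5/4)` -/
noncomputable def CC : ℝ := ∑' n : ℕ, (n : ℝ) ^ (-(5/4) : ℝ)

theorem CC_summable : Summable (fun n : ℕ => (n : ℝ) ^ (-(5/4) : ℝ)) := by
  rw [Real.summable_nat_rpow]
  norm_num

theorem sum_le_CC (S : Finset ℕ) : ∑ d ∈ S, (d : ℝ) ^ (-(5/4) : ℝ) ≤ CC :=
  CC_summable.sum_le_tsum S (fun n _ => by positivity)

theorem CC_nonneg : 0 ≤ CC := tsum_nonneg (fun n => by positivity)

theorem cs_step (S : Finset ℕ) (hS : ∀ d ∈ S, 0 < d) (u v : ℝ) (h : 2 * u = 5/4 + v) :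
    (∑ d ∈ S, (d : ℝ) ^ (-u)) ^ 2 ≤ CC * ∑ d ∈ S, (d : ℝ) ^ (-v) := by
  have h1 : ∑ d ∈ S, (d : ℝ) ^ (-u) =
      ∑ d ∈ S, (d : ℝ) ^ (-(5/8) : ℝ) * (d : ℝ) ^ (-(v / 2)) := by
    apply Finset.sum_congr rfl
    intro d hd
    have hd0 : (0:ℝ) < d := by exact_mod_cast hS d hd
    rw [← Real.rpow_add hd0]
    congr 1
    linarith
  rw [h1]
  refine (Finset.sum_mul_sq_le_sq_mul_sq _ _ _).trans ?_
  have h2 : ∑ d ∈ S, ((d : ℝ) ^ (-(5/8) : ℝ)) ^ 2 = ∑ d ∈ S, (d : ℝ) ^ (-(5/4) : ℝ) := by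
    apply Finset.sum_congr rfl
    intro d hd
    have hd0 : (0:ℝ) < d := by exact_mod_cast hS d hd
    rw [← Real.rpow_natCast, ← Real.rpow_mul hd0.le]
    congr 1
    norm_num
  have h3 : ∑ d ∈ S, ((d : ℝ) ^ (-(v / 2))) ^ 2 = ∑ d ∈ S, (d : ℝ) ^ (-v) := by
    apply Finset.sum_congr rfl
    intro d hd
    have hd0 : (0:ℝ) < d := by exact_mod_cast hS d hd
    rw [← Real.rpow_natCast, ← Real.rpow_mul hd0.le]
    congr 1
    push_cast
    ring
  rw [h2, h3]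
  have h4 : 0 ≤ ∑ d ∈ S, (d : ℝ) ^ (-v) := Finset.sum_nonneg (fun d _ => by positivity)
  have h5 := sum_le_CC S
  gcongr

theorem divsum_pow_four (t : ℕ) :
    (∑ d ∈ t.divisors, 1 / (d : ℝ)) ^ 4 ≤ CC ^ 3 * ∑ d ∈ t.divisors, (d : ℝ) ^ (-(1/4) : ℝ) := by
  have hS : ∀ d ∈ t.divisors, 0 < d := fun d hd => Nat.pos_of_mem_divisors hd
  have h1 : ∑ d ∈ t.divisors, 1 / (d : ℝ) = ∑ d ∈ t.divisors, (d : ℝ) ^ (-(1:ℝ)) := by
    apply Finset.sum_congr rfl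
    intro d _
    rw [Real.rpow_neg_one, one_div]
  have h2 := cs_step t.divisors hS 1 (3/4) (by norm_num)
  have h3 := cs_step t.divisors hS (3/4) (1/4) (by norm_num)
  have hC := CC_nonneg
  have h4 : 0 ≤ ∑ d ∈ t.divisors, (d : ℝ) ^ (-(3/4) : ℝ) :=
    Finset.sum_nonneg (fun d _ => by positivity)
  rw [h1]
  calc (∑ d ∈ t.divisors, (d : ℝ) ^ (-(1:ℝ))) ^ 4
      = ((∑ d ∈ t.divisors, (d : ℝ) ^ (-(1:ℝ))) ^ 2) ^ 2 := by ring
    _ ≤ (CC * ∑ d ∈ t.divisors, (d : ℝ) ^ (-(3/4) : ℝ)) ^ 2 := by gcongr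
    _ = CC ^ 2 * (∑ d ∈ t.divisors, (d : ℝ) ^ (-(3/4) : ℝ)) ^ 2 := by ring
    _ ≤ CC ^ 2 * (CC * ∑ d ∈ t.divisors, (d : ℝ) ^ (-(1/4) : ℝ)) := by gcongr
    _ = _ := by ring

theorem moment (T : ℕ) :
    ∑ t ∈ Finset.Icc 1 T, (∏ p ∈ t.primeFactors, (1 + 1 / (p : ℝ))) ^ 4 ≤ CC ^ 4 * T := by
  have hC := CC_nonneg
  calc ∑ t ∈ Finset.Icc 1 T, (∏ p ∈ t.primeFactors, (1 + 1 / (p : ℝ))) ^ 4
      ≤ ∑ t ∈ Finset.Icc 1 T, CC ^ 3 * ∑ d ∈ t.divisors, (d : ℝ) ^ (-(1/4) : ℝ) := by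
        apply Finset.sum_le_sum
        intro t ht
        rw [Finset.mem_Icc] at ht
        have h1 := prod_le_sum_divisors t ht.1
        have h0 : 0 ≤ ∏ p ∈ t.primeFactors, (1 + 1 / (p : ℝ)) :=
          Finset.prod_nonneg (fun p _ => by positivity)
        calc (∏ p ∈ t.primeFactors, (1 + 1 / (p : ℝ))) ^ 4
            ≤ (∑ d ∈ t.divisors, 1 / (d : ℝ)) ^ 4 := by gcongr
          _ ≤ _ := divsum_pow_four t
    _ = CC ^ 3 * ∑ t ∈ Finset.Icc 1 T, ∑ d ∈ t.divisors, (d : ℝ) ^ (-(1/4) : ℝ) := by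
        rw [Finset.mul_sum]
    _ ≤ CC ^ 3 * (CC * T) := by
        gcongr
        have h1 : ∑ t ∈ Finset.Icc 1 T, ∑ d ∈ t.divisors, (d : ℝ) ^ (-(1/4) : ℝ) =
            ∑ d ∈ Finset.Icc 1 T, ∑ t ∈ Finset.Icc 1 T with d ∣ t, (d : ℝ) ^ (-(1/4) : ℝ) := by
          apply Finset.sum_comm'
          intro t d
          rw [Finset.mem_Icc, Nat.mem_divisors, Finset.mem_filter, Finset.mem_Icc, Finset.mem_Icc]
          constructor
          · rintro ⟨⟨h1, h2⟩, h3, h4⟩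
            exact ⟨⟨⟨h1, h2⟩, h3⟩, Nat.pos_of_dvd_of_pos h3 h1, (Nat.le_of_dvd h1 h3).trans h2⟩
          · rintro ⟨⟨⟨h1, h2⟩, h3⟩, _, _⟩
            exact ⟨⟨h1, h2⟩, h3, by omega⟩
        rw [h1]
        calc ∑ d ∈ Finset.Icc 1 T, ∑ t ∈ Finset.Icc 1 T with d ∣ t, (d : ℝ) ^ (-(1/4) : ℝ)
            ≤ ∑ d ∈ Finset.Icc 1 T, (T : ℝ) * (d : ℝ) ^ (-(5/4) : ℝ) := by
              apply Finset.sum_le_sum
              intro d hd
              rw [Finset.mem_Icc] at hd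
              have hd0 : (0:ℝ) < d := by exact_mod_cast hd.1
              rw [Finset.sum_const, nsmul_eq_mul]
              have h2 : (((Finset.Icc 1 T).filter (fun t => d ∣ t)).card : ℝ) ≤ (T : ℝ) / d := by
                have h3 : ((Finset.Icc 1 T).filter (fun t => d ∣ t)).card = T / d := by
                  have := Nat.Ioc_filter_dvd_card_eq_div T d
                  rw [← this]
                  congr 1
                rw [h3]
                exact Nat.cast_div_le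
              have h4 : (d : ℝ) ^ (-(5/4) : ℝ) = (d : ℝ)⁻¹ * (d : ℝ) ^ (-(1/4) : ℝ) := by
                rw [← Real.rpow_neg_one, ← Real.rpow_add hd0]
                norm_num
              rw [h4]
              calc (((Finset.Icc 1 T).filter (fun t => d ∣ t)).card : ℝ) * (d : ℝ) ^ (-(1/4) : ℝ)
                  ≤ (T : ℝ) / d * (d : ℝ) ^ (-(1/4) : ℝ) := by gcongr
                _ = _ := by rw [div_eq_mul_inv]; ring
          _ = (T : ℝ) * ∑ d ∈ Finset.Icc 1 T, (d : ℝ) ^ (-(5/4) : ℝ) := by rw [Finset.mul_sum]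
          _ ≤ (T : ℝ) * CC := by
              have := sum_le_CC (Finset.Icc 1 T)
              gcongr
          _ = CC * T := by ring
    _ = CC ^ 4 * T := by ring

theorem prod_mul_totient_le (Q : ℕ) (hQ : 0 < Q) :
    (∏ p ∈ Q.primeFactors, (1 + 1 / (p : ℝ))) * (Nat.totient Q : ℝ) ≤ Q := by
  have h1 : ((Nat.totient Q : ℚ)) = Q * ∏ p ∈ Q.primeFactors, (1 - (p : ℚ)⁻¹) :=
    Nat.totient_eq_mul_prod_factors Q
  have h2 : (Nat.totient Q : ℝ) = Q * ∏ p ∈ Q.primeFactors, (1 - (p : ℝ)⁻¹) := by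
    have := congrArg (fun x : ℚ => (x : ℝ)) h1
    push_cast at this
    exact this
  rw [h2]
  have h3 : (∏ p ∈ Q.primeFactors, (1 + 1 / (p : ℝ))) * (∏ p ∈ Q.primeFactors, (1 - (p : ℝ)⁻¹))
      ≤ 1 := by
    rw [← Finset.prod_mul_distrib]
    apply Finset.prod_le_one
    · intro p hp
      have hpp := Nat.prime_of_mem_primeFactors hp
      have : (1:ℝ) < p := by exact_mod_cast hpp.one_lt
      have h4 : (p:ℝ)⁻¹ < 1 := inv_lt_one_of_one_lt₀ this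
      apply mul_nonneg
      · positivity
      · linarith
    · intro p _
      rw [one_div]
      nlinarith [sq_nonneg ((p:ℝ)⁻¹)]
  have hQ' : (0:ℝ) < Q := by exact_mod_cast hQ
  calc (∏ p ∈ Q.primeFactors, (1 + 1 / (p : ℝ))) * (Q * ∏ p ∈ Q.primeFactors, (1 - (p : ℝ)⁻¹))
      = Q * ((∏ p ∈ Q.primeFactors, (1 + 1 / (p : ℝ))) *
        (∏ p ∈ Q.primeFactors, (1 - (p : ℝ)⁻¹))) := by ring
    _ ≤ Q * 1 := by gcongr
    _ = Q := mul_one _

end Pool.Agent.H75.PS
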