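import Mathlib

/-!
Counting `n` in an interval with `d ∣ (Q n + 1) (Q n + 1 + Q t)` for squarefree `d` coprime to `Q`.
-/

set_option autoImplicit false

open Finset ArithmeticFunction

namespace Pool.Agent.H75.PS

theorem card_modEq (a N r v : ℕ) (hr : 0 < r) :
    |((((Finset.Ico a (a + N)).filter (fun n => n ≡ v [MOD r])).card : ℝ)) - (N : ℝ) / r| ≤ 1 := by
  have h := Nat.Ico_filter_modEq_card a (a + N) hr v
  have hr' : (0:ℚ) < r := by exact_mod_cast hr
  have h1 : ((a : ℚ) - v) / r ≤ (((a + N : ℕ) : ℚ) - v) / r := by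
    apply div_le_div_of_nonneg_right _ hr'.le
    push_cast
    have : (0:ℚ) ≤ N := by positivity
    linarith
  have h2 : ⌈((a : ℚ) - v) / r⌉ ≤ ⌈(((a + N : ℕ) : ℚ) - v) / r⌉ := Int.ceil_le_ceil h1
  rw [max_eq_left (by linarith)] at h
  have h3 : (((((Finset.Ico a (a + N)).filter (fun n => n ≡ v [MOD r])).card : ℤ)) : ℚ) =
      (⌈(((a + N : ℕ) : ℚ) - v) / r⌉ : ℚ) - (⌈((a : ℚ) - v) / r⌉ : ℚ) := by
    rw [h]; push_cast; rfl
  have b1 := Int.le_ceil ((((a + N : ℕ) : ℚ) - v) / r)
  have b2 := Int.ceil_lt_add_one ((((a + N : ℕ) : ℚ) - v) / r)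
  have b3 := Int.le_ceil (((a : ℚ) - v) / r)
  have b4 := Int.ceil_lt_add_one (((a : ℚ) - v) / r)
  have h4 : (((a + N : ℕ) : ℚ) - v) / r - ((a : ℚ) - v) / r = (N : ℚ) / r := by
    push_cast
    field_simp
    ring
  have h5 : |((((Finset.Ico a (a + N)).filter (fun n => n ≡ v [MOD r])).card : ℚ)) -
      (N : ℚ) / r| ≤ 1 := by
    rw [abs_le]
    push_cast at h3
    rw [h3, ← h4]
    push_cast at *
    constructor <;> linarith
  have h6 := (Rat.cast_le (K := ℝ)).mpr h5
  push_cast at h6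
  exact h6

/-- One residue class: the conditions `d₁ ∣ Q n + 1`, `e ∣ Q n + 1 + Q t` with `d₁ e` coprime
to `Q` and `d₁, e` coprime. -/
theorem exists_class (Q t d₁ e : ℕ) (hcop : Nat.Coprime d₁ e) (hQ : Nat.Coprime (d₁ * e) Q)
    (h1 : 0 < d₁) (he : 0 < e) :
    ∃ r : ℕ, ∀ n : ℕ, (d₁ ∣ Q * n + 1 ∧ e ∣ Q * n + 1 + Q * t) ↔ n ≡ r [MOD d₁ * e] := by
  have hd : 0 < d₁ * e := Nat.mul_pos h1 he
  -- u with Q u = -1 mod d
  obtain ⟨u, hu⟩ : ∃ u : ℕ, d₁ * e ∣ Q * u + 1 := by
    have : NeZero (d₁ * e) := ⟨hd.ne'⟩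
    have hunit : IsUnit ((Q : ℕ) : ZMod (d₁ * e)) := (ZMod.isUnit_iff_coprime Q (d₁ * e)).mpr hQ.symm
    obtain ⟨w, hw⟩ := hunit
    refine ⟨((-(↑(w⁻¹) : ZMod (d₁ * e)))).val, ?_⟩
    rw [← CharP.cast_eq_zero_iff (ZMod (d₁ * e)) (d₁ * e)]
    push_cast
    rw [ZMod.natCast_val, ZMod.cast_id]
    rw [← hw]
    simp
  have hd1u : d₁ ∣ Q * u + 1 := (Dvd.intro _ rfl).trans hu
  have heu : e ∣ Q * u + 1 := (Dvd.intro_left _ rfl).trans hu
  have hQ1 : Nat.Coprime d₁ Q := Nat.Coprime.coprime_dvd_left (Dvd.intro _ rfl) hQ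
  have hQe : Nat.Coprime e Q := Nat.Coprime.coprime_dvd_left (Dvd.intro_left _ rfl) hQ
  set v := u + (e - 1) * t with hv
  have hev : e ∣ Q * v + 1 + Q * t := by
    have : Q * v + 1 + Q * t = (Q * u + 1) + e * (Q * t) := by
      rw [hv]
      obtain ⟨e', rfl⟩ : ∃ e', e = e' + 1 := ⟨e - 1, by omega⟩
      simp only [Nat.add_sub_cancel]
      ring
    rw [this]
    exact (Nat.dvd_add_right heu).mpr (Dvd.intro _ rfl)
  obtain ⟨r, hr1, hr2⟩ := Nat.chineseRemainder hcop u v
  refine ⟨r, fun n => ?_⟩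
  rw [← Nat.modEq_and_modEq_iff_modEq_mul hcop]
  have e1 : d₁ ∣ Q * n + 1 ↔ n ≡ r [MOD d₁] := by
    constructor
    · intro h
      have h2 : Q * n + 1 ≡ Q * u + 1 [MOD d₁] :=
        ((Nat.modEq_zero_iff_dvd).mpr h).trans ((Nat.modEq_zero_iff_dvd).mpr hd1u).symm
      have h3 : Q * n ≡ Q * u [MOD d₁] := Nat.ModEq.add_right_cancel' 1 h2
      have h4 : n ≡ u [MOD d₁] := Nat.ModEq.cancel_left_of_coprime hQ1 h3
      exact h4.trans hr1.symm
    · intro h
      have h4 : n ≡ u [MOD d₁] := h.trans hr1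
      have h2 : Q * n + 1 ≡ Q * u + 1 [MOD d₁] := (h4.mul_left Q).add_right 1
      exact (Nat.modEq_zero_iff_dvd).mp (h2.trans ((Nat.modEq_zero_iff_dvd).mpr hd1u))
  have e2 : e ∣ Q * n + 1 + Q * t ↔ n ≡ r [MOD e] := by
    constructor
    · intro h
      have h2 : Q * n + 1 + Q * t ≡ Q * v + 1 + Q * t [MOD e] :=
        ((Nat.modEq_zero_iff_dvd).mpr h).trans ((Nat.modEq_zero_iff_dvd).mpr hev).symm
      have h3 : Q * n ≡ Q * v [MOD e] :=
        Nat.ModEq.add_right_cancel' 1 (Nat.ModEq.add_right_cancel' (Q * t) h2)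
      have h4 : n ≡ v [MOD e] := Nat.ModEq.cancel_left_of_coprime hQe h3
      exact h4.trans hr2.symm
    · intro h
      have h4 : n ≡ v [MOD e] := h.trans hr2
      have h2 : Q * n + 1 + Q * t ≡ Q * v + 1 + Q * t [MOD e] :=
        ((h4.mul_left Q).add_right 1).add_right (Q * t)
      exact (Nat.modEq_zero_iff_dvd).mp (h2.trans ((Nat.modEq_zero_iff_dvd).mpr hev))
  rw [e1, e2]

/-- Pointwise decomposition. -/
theorem indicator_eq (Q t d n : ℕ) (hd : Squarefree d) (hQ : Nat.Coprime d Q) :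
    (if d ∣ (Q * n + 1) * (Q * n + 1 + Q * t) then (1:ℕ) else 0) =
      ∑ e ∈ d.divisors with e.Coprime t,
        if (d / e ∣ Q * n + 1 ∧ e ∣ Q * n + 1 + Q * t) then 1 else 0 := by
  have hd0 : d ≠ 0 := hd.ne_zero
  set A := Q * n + 1 with hA
  set B := Q * n + 1 + Q * t with hB
  -- common prime divisors
  have key : ∀ p : ℕ, p.Prime → p ∣ d → p ∣ A → p ∣ B → p ∣ t := by
    intro p hp hpd hpA hpB
    have h1 : p ∣ Q * t := (Nat.dvd_add_right hpA).mp hpB
    have h2 : Nat.Coprime p Q := Nat.Coprime.coprime_dvd_left hpd hQ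
    exact h2.dvd_of_dvd_mul_left h1
  have key2 : ∀ p : ℕ, p.Prime → p ∣ t → p ∣ B → p ∣ A := by
    intro p hp hpt hpB
    have h1 : p ∣ Q * t := hpt.mul_left Q
    exact (Nat.dvd_add_left h1).mp hpB
  set g := d.gcd A with hg
  have hgd : g ∣ d := Nat.gcd_dvd_left d A
  have hgA : g ∣ A := Nat.gcd_dvd_right d A
  have hg0 : 0 < g := Nat.gcd_pos_of_pos_left _ (Nat.pos_of_ne_zero hd0)
  have huniq : ∀ e ∈ d.divisors.filter (fun e => e.Coprime t),
      (d / e ∣ A ∧ e ∣ B) → e = d / g := by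
    intro e he hee
    rw [Finset.mem_filter, Nat.mem_divisors] at he
    obtain ⟨⟨hed, _⟩, het⟩ := he
    have heA : Nat.Coprime e A := by
      rw [Nat.coprime_iff_gcd_eq_one]
      by_contra hne
      obtain ⟨p, hp, hpe⟩ := Nat.exists_prime_and_dvd hne
      have hp1 : p ∣ e := hpe.trans (Nat.gcd_dvd_left _ _)
      have hp2 : p ∣ A := hpe.trans (Nat.gcd_dvd_right _ _)
      have hpt := key p hp (hp1.trans hed) hp2 (hp1.trans hee.2)
      exact Nat.Prime.one_lt hp |>.ne' (Nat.dvd_one.mp (by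
        have := Nat.dvd_gcd hp1 hpt
        rwa [het] at this))
    have h1 : g = d / e := by
      rw [hg]
      conv_lhs => rw [← Nat.div_mul_cancel hed]
      rw [Nat.Coprime.gcd_mul_right_cancel _ heA]
      exact Nat.gcd_eq_left hee.1
    rw [h1, Nat.div_div_self hed hd0]
  by_cases h : d ∣ A * B
  · rw [if_pos h]
    have hsplit : d = (d / g) * g := (Nat.div_mul_cancel hgd).symm
    have hsq' : Squarefree ((d / g) * g) := by rw [← hsplit]; exact hd
    have hcop : Nat.Coprime (d / g) g := Nat.coprime_of_squarefree_mul hsq'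
    have hdgA : Nat.Coprime (d / g) (A / g) := by
      have := Nat.coprime_div_gcd_div_gcd (m := d) (n := A) hg0
      exact this
    have hdgA2 : Nat.Coprime (d / g) A := by
      rw [← Nat.div_mul_cancel hgA]
      exact Nat.Coprime.mul_right hdgA hcop
    have hdgB : d / g ∣ B := by
      have h1 : d / g ∣ A * B := (Nat.div_dvd_of_dvd hgd).trans h
      exact hdgA2.dvd_of_dvd_mul_left h1
    have hdgt : Nat.Coprime (d / g) t := by
      rw [Nat.coprime_iff_gcd_eq_one]
      by_contra hne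
      obtain ⟨p, hp, hpe⟩ := Nat.exists_prime_and_dvd hne
      have hp1 : p ∣ d / g := hpe.trans (Nat.gcd_dvd_left _ _)
      have hp2 : p ∣ t := hpe.trans (Nat.gcd_dvd_right _ _)
      have hpA := key2 p hp hp2 (hp1.trans hdgB)
      exact Nat.Prime.one_lt hp |>.ne' (Nat.dvd_one.mp (by
        have := Nat.dvd_gcd hp1 hpA
        rwa [hdgA2] at this))
    have hmem : d / g ∈ d.divisors.filter (fun e => e.Coprime t) := by
      rw [Finset.mem_filter, Nat.mem_divisors]
      exact ⟨⟨Nat.div_dvd_of_dvd hgd, hd0⟩, hdgt⟩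
    rw [Finset.sum_eq_single_of_mem (d / g) hmem]
    · rw [Nat.div_div_self hgd hd0, if_pos ⟨hgA, hdgB⟩]
    · intro e he hne
      rw [if_neg]
      intro hee
      exact hne (huniq e he hee)
  · rw [if_neg h]
    symm
    apply Finset.sum_eq_zero
    intro e he
    rw [if_neg]
    intro hee
    apply h
    rw [Finset.mem_filter, Nat.mem_divisors] at he
    calc d = d / e * e := (Nat.div_mul_cancel he.1.1).symm
      _ ∣ A * B := Nat.mul_dvd_mul hee.1 hee.2

/-- The local densities. -/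
noncomputable def nuf (t : ℕ) : ArithmeticFunction ℝ :=
  prodPrimeFactors (fun p => (if p ∣ t then 1 else 2) / (p : ℝ))

theorem nuf_mult (t : ℕ) : (nuf t).IsMultiplicative := IsMultiplicative.prodPrimeFactors _

theorem nuf_prime (t p : ℕ) (hp : p.Prime) : nuf t p = (if p ∣ t then 1 else 2) / (p : ℝ) := by
  unfold nuf
  rw [prodPrimeFactors_apply hp.ne_zero, hp.primeFactors, Finset.prod_singleton]

theorem nuf_eq (t d : ℕ) (hd : Squarefree d) :
    nuf t d = ((d.divisors.filter (fun e => e.Coprime t)).card : ℝ) / d := by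
  have hd0 := hd.ne_zero
  unfold nuf
  rw [prodPrimeFactors_apply hd0, Finset.prod_div_distrib]
  congr 1
  · set f : ArithmeticFunction ℝ := prodPrimeFactors (fun p => if p ∣ t then 0 else 1) with hf
    have hfm : f.IsMultiplicative := IsMultiplicative.prodPrimeFactors _
    have h1 := hfm.prodPrimeFactors_one_add_of_squarefree hd
    have h2 : ∀ p ∈ d.primeFactors, (if p ∣ t then (1:ℝ) else 2) = 1 + f p := by
      intro p hp
      have hpp := Nat.prime_of_mem_primeFactors hp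
      rw [hf, prodPrimeFactors_apply hpp.ne_zero, hpp.primeFactors, Finset.prod_singleton]
      split_ifs <;> norm_num
    rw [Finset.prod_congr rfl h2, h1]
    rw [Finset.card_filter]
    push_cast
    apply Finset.sum_congr rfl
    intro e he
    rw [Nat.mem_divisors] at he
    have he0 : e ≠ 0 := fun h => hd0 (by simpa [h] using he.1)
    rw [hf, prodPrimeFactors_apply he0]
    split_ifs with h
    · apply Finset.prod_eq_one
      intro p hp
      rw [if_neg]
      intro hpt
      have hpp := Nat.prime_of_mem_primeFactors hp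
      have := Nat.dvd_gcd (Nat.dvd_of_mem_primeFactors hp) hpt
      rw [h] at this
      exact hpp.one_lt.ne' (Nat.dvd_one.mp this)
    · rw [Nat.coprime_iff_gcd_eq_one] at h
      obtain ⟨p, hp, hpe⟩ := Nat.exists_prime_and_dvd h
      apply Finset.prod_eq_zero (i := p)
      · rw [Nat.mem_primeFactors]
        exact ⟨hp, hpe.trans (Nat.gcd_dvd_left _ _), he0⟩
      · rw [if_pos (hpe.trans (Nat.gcd_dvd_right _ _))]
  · rw [← Nat.cast_prod, Nat.prod_primeFactors_of_squarefree hd]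

theorem count_bound (Q t a N d : ℕ) (hd : Squarefree d) (hQ : Nat.Coprime d Q) :
    |((((Finset.Ico a (a + N)).filter
      (fun n => d ∣ (Q * n + 1) * (Q * n + 1 + Q * t))).card : ℝ)) - nuf t d * N| ≤ d := by
  have hd0 : d ≠ 0 := hd.ne_zero
  have hdpos : (0:ℝ) < d := by exact_mod_cast Nat.pos_of_ne_zero hd0
  have h1 : (((Finset.Ico a (a + N)).filter
      (fun n => d ∣ (Q * n + 1) * (Q * n + 1 + Q * t))).card : ℝ) =
      ∑ e ∈ d.divisors with e.Coprime t, (((Finset.Ico a (a + N)).filter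
        (fun n => d / e ∣ Q * n + 1 ∧ e ∣ Q * n + 1 + Q * t)).card : ℝ) := by
    rw [Finset.card_filter]
    rw [Finset.sum_congr rfl (fun n _ => indicator_eq Q t d n hd hQ)]
    rw [Finset.sum_comm]
    push_cast
    apply Finset.sum_congr rfl
    intro e _
    rw [Finset.card_filter]
    push_cast
    rfl
  have h2 : nuf t d * N = ∑ e ∈ d.divisors with e.Coprime t, (N : ℝ) / d := by
    rw [Finset.sum_const, nuf_eq t d hd, nsmul_eq_mul]
    ring
  rw [h1, h2, ← Finset.sum_sub_distrib]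
  refine (Finset.abs_sum_le_sum_abs _ _).trans ?_
  calc ∑ e ∈ d.divisors with e.Coprime t, |(((Finset.Ico a (a + N)).filter
        (fun n => d / e ∣ Q * n + 1 ∧ e ∣ Q * n + 1 + Q * t)).card : ℝ) - (N : ℝ) / d|
      ≤ ∑ e ∈ d.divisors with e.Coprime t, (1:ℝ) := by
        apply Finset.sum_le_sum
        intro e he
        rw [Finset.mem_filter, Nat.mem_divisors] at he
        obtain ⟨⟨hed, _⟩, _⟩ := he
        have he0 : 0 < e := Nat.pos_of_dvd_of_pos hed (Nat.pos_of_ne_zero hd0)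
        have hde0 : 0 < d / e := Nat.div_pos (Nat.le_of_dvd (Nat.pos_of_ne_zero hd0) hed) he0
        have hsplit : d / e * e = d := Nat.div_mul_cancel hed
        have hcop : Nat.Coprime (d / e) e := Nat.coprime_of_squarefree_mul (by rw [hsplit]; exact hd)
        obtain ⟨r, hr⟩ := exists_class Q t (d / e) e hcop (by rw [hsplit]; exact hQ) hde0 he0
        have h3 : (Finset.Ico a (a + N)).filter
            (fun n => d / e ∣ Q * n + 1 ∧ e ∣ Q * n + 1 + Q * t) =
            (Finset.Ico a (a + N)).filter (fun n => n ≡ r [MOD d]) := by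
          apply Finset.filter_congr
          intro n _
          rw [hr n, hsplit]
        rw [h3]
        exact card_modEq a N d r (Nat.pos_of_ne_zero hd0)
    _ = ((d.divisors.filter (fun e => e.Coprime t)).card : ℝ) := by simp
    _ ≤ (d.divisors.card : ℝ) := by
        exact_mod_cast Finset.card_filter_le _ _
    _ ≤ d := by
        exact_mod_cast Nat.card_divisors_le_self d

end Pool.Agent.H75.PS
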