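import Pool.Agent.H75.PS.Lower
import Pool.Agent.H75.PS.Count

/-!
The upper bound for prime pairs `Q n + 1`, `Q n + 1 + Q t`.
-/

set_option autoImplicit false

open Finset ArithmeticFunction

namespace Pool.Agent.H75.PS

open BoundingSieve

/-- The sieving primes. -/
def SP (Q R : ℕ) : Finset ℕ := (Nat.primesLE R).filter (fun p => ¬ p ∣ Q)

theorem mem_SP {Q R p : ℕ} : p ∈ SP Q R ↔ (p ≤ R ∧ p.Prime) ∧ ¬ p ∣ Q := by
  unfold SP
  rw [Finset.mem_filter, Nat.mem_primesLE]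

theorem SP_sqf (Q R : ℕ) : Squarefree (∏ p ∈ SP Q R, p) := by
  have h : ∀ S : Finset ℕ, (∀ p ∈ S, p.Prime) → Squarefree (∏ p ∈ S, p) := by
    intro S
    induction S using Finset.induction_on with
    | empty => intro _; simp
    | insert p S hp ih =>
      intro h
      rw [Finset.prod_insert hp]
      rw [Nat.squarefree_mul_iff]
      refine ⟨?_, (h p (Finset.mem_insert_self p S)).squarefree,
        ih (fun q hq => h q (Finset.mem_insert_of_mem hq))⟩
      apply Nat.Coprime.prod_right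
      intro q hq
      exact (Nat.coprime_primes (h p (Finset.mem_insert_self p S))
        (h q (Finset.mem_insert_of_mem hq))).mpr (fun hpq => hp (hpq ▸ hq))
  exact h _ (fun p hp => (mem_SP.mp hp).1.2)

theorem prime_dvd_SP {Q R p : ℕ} (hp : p.Prime) : p ∣ ∏ p ∈ SP Q R, p ↔ p ∈ SP Q R := by
  constructor
  · intro h
    obtain ⟨q, hq, hpq⟩ := (Prime.dvd_finsetProd_iff hp.prime _).mp h
    have := (Nat.prime_dvd_prime_iff_eq hp (mem_SP.mp hq).1.2).mp hpq
    rwa [this]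
  · intro h
    exact Finset.dvd_prod_of_mem _ h

theorem primeFactors_SP (Q R : ℕ) : (∏ p ∈ SP Q R, p).primeFactors = SP Q R :=
  Nat.primeFactors_prod (fun p hp => (mem_SP.mp hp).1.2)

theorem coprime_of_dvd_SP {Q R d : ℕ} (hd : d ∣ ∏ p ∈ SP Q R, p) : Nat.Coprime d Q := by
  apply Nat.Coprime.coprime_dvd_left hd
  apply Nat.Coprime.prod_left
  intro p hp
  exact (Nat.Prime.coprime_iff_not_dvd (mem_SP.mp hp).1.2).mpr (mem_SP.mp hp).2

/-- The value map. -/
def val (Q t n : ℕ) : ℕ := (Q * n + 1) * (Q * n + 1 + Q * t)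

theorem val_inj (Q t : ℕ) (hQ : 0 < Q) : Function.Injective (val Q t) := by
  have h : StrictMono (val Q t) := by
    apply strictMono_nat_of_lt_succ
    intro n
    unfold val
    have h1 : Q * n + 1 < Q * (n + 1) + 1 := by
      have : Q * (n + 1) = Q * n + Q := by ring
      omega
    exact Nat.mul_lt_mul'' h1 (by omega)
  exact h.injective

/-- The sieve problem. -/
noncomputable def sv (Q t a N R : ℕ) (hQ : Even Q) : BoundingSieve where
  support := (Finset.Ico a (a + N)).image (val Q t)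
  prodPrimes := ∏ p ∈ SP Q R, p
  prodPrimes_squarefree := SP_sqf Q R
  weights := fun _ => 1
  weights_nonneg := fun _ => zero_le_one
  totalMass := N
  nu := nuf t
  nu_mult := nuf_mult t
  nu_pos_of_prime := by
    intro p hp _
    rw [nuf_prime t p hp]
    have : (0:ℝ) < p := by exact_mod_cast hp.pos
    split_ifs <;> positivity
  nu_lt_one_of_prime := by
    intro p hp hpP
    rw [nuf_prime t p hp]
    have h1 := (prime_dvd_SP hp).mp hpP
    have h2 : p ≠ 2 := by
      rintro rfl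
      exact (mem_SP.mp h1).2 hQ.two_dvd
    have h3 : 2 < p := lt_of_le_of_ne hp.two_le (Ne.symm h2)
    have h4 : (2:ℝ) < p := by exact_mod_cast h3
    rw [div_lt_one (by linarith)]
    split_ifs <;> linarith

theorem sv_multSum (Q t a N R : ℕ) (hQ : Even Q) (hQ0 : 0 < Q) (d : ℕ) :
    (sv Q t a N R hQ).multSum d =
      (((Finset.Ico a (a + N)).filter (fun n => d ∣ val Q t n)).card : ℝ) := by
  unfold multSum sv
  simp only
  rw [Finset.sum_image (fun x _ y _ h => val_inj Q t hQ0 h), Finset.card_filter]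
  push_cast
  rfl

theorem sv_rem (Q t a N R : ℕ) (hQ : Even Q) (hQ0 : 0 < Q) (d : ℕ)
    (hd : d ∣ ∏ p ∈ SP Q R, p) : |(sv Q t a N R hQ).rem d| ≤ d := by
  have h := count_bound Q t a N d ((SP_sqf Q R).squarefree_of_dvd hd) (coprime_of_dvd_SP hd)
  unfold rem
  rw [sv_multSum Q t a N R hQ hQ0]
  exact h

theorem sv_sifted (Q t a N R : ℕ) (hQ : Even Q) (hQ0 : 0 < Q) (hR : R ≤ Q * a) :
    ((((Finset.Ico a (a + N)).filter
      (fun n => (Q * n + 1).Prime ∧ (Q * n + 1 + Q * t).Prime)).card : ℝ)) ≤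
      (sv Q t a N R hQ).siftedSum := by
  unfold siftedSum sv
  simp only
  rw [Finset.sum_image (fun x _ y _ h => val_inj Q t hQ0 h), Finset.card_filter]
  push_cast
  apply Finset.sum_le_sum
  intro n hn
  rw [Finset.mem_Ico] at hn
  split_ifs with h1 h2
  · exact le_rfl
  · exfalso
    apply h2
    apply Nat.Coprime.prod_left
    intro p hp
    have hp' := mem_SP.mp hp
    have hle : Q * a ≤ Q * n := Nat.mul_le_mul_left Q hn.1
    unfold val
    apply Nat.Coprime.mul_right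
    · exact (Nat.coprime_primes hp'.1.2 h1.1).mpr (by omega)
    · exact (Nat.coprime_primes hp'.1.2 h1.2).mpr (by omega)
  · exact zero_le_one
  · exact le_rfl

theorem sv_g (Q t a N R : ℕ) (hQ : Even Q) (p : ℕ) (hp : p ∈ SP Q R) (hpt : ¬ p ∣ t) :
    2 / (p : ℝ) + 1 / (p : ℝ) ^ 2 ≤ (sv Q t a N R hQ).selbergTerms p := by
  have hpp := (mem_SP.mp hp).1.2
  have h2 : p ≠ 2 := by
    rintro rfl
    exact (mem_SP.mp hp).2 hQ.two_dvd
  have h3 : 3 ≤ p := lt_of_le_of_ne hpp.two_le (Ne.symm h2)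
  have h4 : (3:ℝ) ≤ p := by exact_mod_cast h3
  rw [selbergTerms_apply, hpp.primeFactors, Finset.prod_singleton]
  have h5 : (sv Q t a N R hQ).nu p = 2 / (p:ℝ) := by
    show nuf t p = _
    rw [nuf_prime t p hpp, if_neg hpt]
  rw [h5]
  have hp0 : (0:ℝ) < p := by linarith
  have hp2 : (0:ℝ) < p - 2 := by linarith
  have h6 : 2 / (p:ℝ) * (1 - 2 / (p:ℝ))⁻¹ = 2 / ((p:ℝ) - 2) := by
    have : 1 - 2 / (p:ℝ) = ((p:ℝ) - 2) / p := by field_simp
    rw [this, inv_div]
    field_simp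
  rw [h6]
  rw [div_add_div _ _ hp0.ne' (by positivity), div_le_div_iff₀ (by positivity) hp2]
  nlinarith [sq_nonneg ((p:ℝ)), mul_pos hp0 hp0, mul_pos hp0 hp2]

/-- The set of primes dividing `Q` or `t`. -/
theorem SS_lower (Q t a N z : ℕ) (hQ : Even Q) (hQ0 : 0 < Q) (ht : 0 < t) :
    (Real.log (z + 1)) ^ 2 ≤ 4 * (∏ p ∈ Q.primeFactors, (1 + 1 / (p : ℝ))) ^ 2 *
      (∏ p ∈ t.primeFactors, (1 + 1 / (p : ℝ))) ^ 2 * SS (sv Q t a N (z * z) hQ) (z * z) := by
  classical
  set s := sv Q t a N (z * z) hQ with hs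
  have hprod : s.prodPrimes = ∏ p ∈ SP Q (z * z), p := rfl
  -- SS ≥ FF
  have hSS : FF (fun p => s.selbergTerms p) (SP Q (z * z)) (z * z) ≤ SS s (z * z) := by
    unfold FF SS
    have hinj : Set.InjOn (fun A : Finset ℕ => ∏ p ∈ A, p)
        (((SP Q (z * z)).powerset.filter (fun A => ∏ p ∈ A, p ≤ z * z) : Finset (Finset ℕ)) :
          Set (Finset ℕ)) := by
      intro A hA B hB hAB
      simp only [Finset.coe_filter, Finset.mem_powerset, Set.mem_setOf_eq] at hA hB
      have h1 : (∏ p ∈ A, p).primeFactors = A :=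
        Nat.primeFactors_prod (fun p hp => (mem_SP.mp (hA.1 hp)).1.2)
      have h2 : (∏ p ∈ B, p).primeFactors = B :=
        Nat.primeFactors_prod (fun p hp => (mem_SP.mp (hB.1 hp)).1.2)
      simp only at hAB
      rw [← h1, ← h2, hAB]
    have h3 : ∀ A ∈ (SP Q (z * z)).powerset.filter (fun A => ∏ p ∈ A, p ≤ z * z),
        ∏ p ∈ A, s.selbergTerms p = s.selbergTerms (∏ p ∈ A, p) := by
      intro A hA
      rw [Finset.mem_filter, Finset.mem_powerset] at hA
      symm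
      apply selbergTerms_isMultiplicative.map_prod_of_subset_primeFactors s.prodPrimes
      rw [hprod, primeFactors_SP]
      exact hA.1
    rw [Finset.sum_congr rfl h3]
    rw [← Finset.sum_image (f := fun l => s.selbergTerms l) hinj]
    apply Finset.sum_le_sum_of_subset_of_nonneg
    · intro l hl
      rw [Finset.mem_image] at hl
      obtain ⟨A, hA, rfl⟩ := hl
      rw [Finset.mem_filter, Finset.mem_powerset] at hA
      rw [Finset.mem_filter, Nat.mem_divisors]
      refine ⟨⟨?_, prodPrimes_ne_zero⟩, hA.2⟩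
      rw [hprod]
      exact Finset.prod_dvd_prod_of_subset _ _ _ hA.1
    · intro l hl _
      rw [Finset.mem_filter, Nat.mem_divisors] at hl
      exact (selbergTerms_pos hl.1.1).le
  -- restrict to primes not dividing t
  set P1 := (SP Q (z * z)).filter (fun p => ¬ p ∣ t) with hP1
  have hgnn : ∀ p ∈ SP Q (z * z), 0 ≤ s.selbergTerms p := by
    intro p hp
    apply (selbergTerms_pos _).le
    rw [hprod]
    exact Finset.dvd_prod_of_mem _ hp
  have h1 : FF (fun p => s.selbergTerms p) P1 (z * z) ≤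
      FF (fun p => s.selbergTerms p) (SP Q (z * z)) (z * z) :=
    FF_subset _ (Finset.filter_subset _ _) hgnn _
  have h2 := FF_mul (fun p => s.selbergTerms p) P1 (by
    intro p hp
    rw [hP1, Finset.mem_filter] at hp
    exact ⟨(mem_SP.mp hp.1).1.2.pos, sv_g Q t a N (z * z) hQ p hp.1 hp.2⟩) z z
  -- lower bound for FF (1/p) P1 z
  have h3 := harmonic_le z
  have h4 := FF_sdiff (Nat.primesLE z) (Q.primeFactors ∪ t.primeFactors) z (by
    intro p hp
    rw [Finset.mem_union] at hp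
    rcases hp with hp | hp
    · exact (Nat.prime_of_mem_primeFactors hp).pos
    · exact (Nat.prime_of_mem_primeFactors hp).pos)
  have h5 : FF (fun p => 1 / (p : ℝ)) (Nat.primesLE z \ (Q.primeFactors ∪ t.primeFactors)) z ≤
      FF (fun p => 1 / (p : ℝ)) P1 z := by
    apply FF_subset
    · intro p hp
      rw [Finset.mem_sdiff, Finset.mem_union, Nat.mem_primesLE, Nat.mem_primeFactors,
        Nat.mem_primeFactors] at hp
      obtain ⟨⟨hpz, hpp⟩, hp2⟩ := hp
      rw [hP1, Finset.mem_filter, mem_SP]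
      have hzz : z ≤ z * z := by
        rcases Nat.eq_zero_or_pos z with h0 | h0
        · rw [h0]
        · exact Nat.le_mul_of_pos_left z h0
      refine ⟨⟨⟨hpz.trans hzz, hpp⟩, ?_⟩, ?_⟩
      · intro h
        exact hp2 (Or.inl ⟨hpp, h, hQ0.ne'⟩)
      · intro h
        exact hp2 (Or.inr ⟨hpp, h, ht.ne'⟩)
    · intro p _
      positivity
  have h6 : ∏ p ∈ Q.primeFactors ∪ t.primeFactors, (1 + 1 / (p : ℝ)) ≤
      (∏ p ∈ Q.primeFactors, (1 + 1 / (p : ℝ))) * ∏ p ∈ t.primeFactors, (1 + 1 / (p : ℝ)) := by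
    rw [← Finset.prod_union_inter]
    have : (1:ℝ) ≤ ∏ p ∈ Q.primeFactors ∩ t.primeFactors, (1 + 1 / (p : ℝ)) := by
      calc (1:ℝ) = ∏ p ∈ Q.primeFactors ∩ t.primeFactors, (1:ℝ) := by simp
        _ ≤ _ := by
          apply Finset.prod_le_prod
          · intro p _
            exact zero_le_one
          · intro p _
            have : (0:ℝ) ≤ 1 / (p:ℝ) := by positivity
            linarith
    have hn : (0:ℝ) ≤ ∏ p ∈ Q.primeFactors ∪ t.primeFactors, (1 + 1 / (p : ℝ)) :=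
      Finset.prod_nonneg (fun p _ => by positivity)
    nlinarith
  have hFn : 0 ≤ FF (fun p => 1 / (p : ℝ)) P1 z := FF_nonneg _ _ (fun q _ => by positivity) _
  have hFn' : 0 ≤ FF (fun p => 1 / (p : ℝ))
    (Nat.primesLE z \ (Q.primeFactors ∪ t.primeFactors)) z :=
    FF_nonneg _ _ (fun q _ => by positivity) _
  have hcQ0 : 0 ≤ ∏ p ∈ Q.primeFactors, (1 + 1 / (p : ℝ)) :=
    Finset.prod_nonneg (fun p _ => by positivity)
  have hct0 : 0 ≤ ∏ p ∈ t.primeFactors, (1 + 1 / (p : ℝ)) :=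
    Finset.prod_nonneg (fun p _ => by positivity)
  generalize ∏ p ∈ Q.primeFactors, (1 + 1 / (p : ℝ)) = cQ at *
  generalize ∏ p ∈ t.primeFactors, (1 + 1 / (p : ℝ)) = ct at *
  have h7 : Real.log (z + 1) ≤ 2 * (cQ * ct * FF (fun p => 1 / (p : ℝ)) P1 z) := by
    have hl : Real.log (z + 1) ≤ ∑ a ∈ Finset.Icc 1 z, 1 / (a : ℝ) := by
      have := log_add_one_le_harmonic z
      rw [harmonic_eq_sum_Icc] at this
      push_cast at this
      simpa [one_div] using this
    refine hl.trans (h3.trans ?_)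
    gcongr
    refine h4.trans ?_
    calc (∏ p ∈ Q.primeFactors ∪ t.primeFactors, (1 + 1 / (p : ℝ))) *
          FF (fun p => 1 / (p : ℝ)) (Nat.primesLE z \ (Q.primeFactors ∪ t.primeFactors)) z
        ≤ (cQ * ct) *
          FF (fun p => 1 / (p : ℝ)) (Nat.primesLE z \ (Q.primeFactors ∪ t.primeFactors)) z := by
          gcongr
      _ ≤ (cQ * ct) * FF (fun p => 1 / (p : ℝ)) P1 z := by gcongr
  have hlog : 0 ≤ Real.log (z + 1) := by
    apply Real.log_nonneg
    have : (0:ℝ) ≤ z := by positivity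
    linarith
  calc (Real.log (z + 1)) ^ 2 ≤ (2 * (cQ * ct * FF (fun p => 1 / (p : ℝ)) P1 z)) ^ 2 := by
        gcongr
    _ = 4 * cQ ^ 2 * ct ^ 2 *
        (FF (fun p => 1 / (p : ℝ)) P1 z * FF (fun p => 1 / (p : ℝ)) P1 z) := by ring
    _ ≤ 4 * cQ ^ 2 * ct ^ 2 * SS s (z * z) := by
        have := h2.trans (h1.trans hSS)
        gcongr

theorem nuf_inv_le (t d : ℕ) (hd : Squarefree d) : (nuf t d)⁻¹ ≤ d := by
  have hd0 : (0:ℝ) < d := by exact_mod_cast Nat.pos_of_ne_zero hd.ne_zero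
  rw [nuf_eq t d hd, inv_div]
  have h1 : (1:ℝ) ≤ ((d.divisors.filter (fun e => e.Coprime t)).card : ℝ) := by
    have : 0 < (d.divisors.filter (fun e => e.Coprime t)).card := by
      rw [Finset.card_pos]
      refine ⟨1, ?_⟩
      rw [Finset.mem_filter, Nat.mem_divisors]
      exact ⟨⟨one_dvd _, hd.ne_zero⟩, Nat.coprime_one_left t⟩
    exact_mod_cast this
  rw [div_le_iff₀ (by linarith)]
  nlinarith

/-- **Prime pairs** bound. -/
theorem pair_bound (Q t a N z : ℕ) (hQ : Even Q) (hQ0 : 0 < Q) (ht : 0 < t) (hz : 1 ≤ z)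
    (hza : z * z ≤ Q * a) :
    ((((Finset.Ico a (a + N)).filter
      (fun n => (Q * n + 1).Prime ∧ (Q * n + 1 + Q * t).Prime)).card : ℝ)) ≤
      4 * (∏ p ∈ Q.primeFactors, (1 + 1 / (p : ℝ))) ^ 2 *
      (∏ p ∈ t.primeFactors, (1 + 1 / (p : ℝ))) ^ 2 * N / (Real.log (z + 1)) ^ 2 +
      (z : ℝ) ^ 12 := by
  have h1 := sv_sifted Q t a N (z * z) hQ hQ0 hza
  have hR : 1 ≤ z * z := Nat.mul_pos hz hz
  have h2 := selberg_bound (sv Q t a N (z * z) hQ) (z * z) hR
  have h3 := SS_lower Q t a N z hQ hQ0 ht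
  set s := sv Q t a N (z * z) hQ with hs
  have hS := SS_pos s (z * z) hR
  have hzpos : (0:ℝ) < z := by exact_mod_cast hz
  have hlog : 0 < Real.log (z + 1) := Real.log_pos (by linarith)
  have hmass : s.totalMass = N := rfl
  have hprod : s.prodPrimes = ∏ p ∈ SP Q (z * z), p := rfl
  have hcQ0 : 0 ≤ ∏ p ∈ Q.primeFactors, (1 + 1 / (p : ℝ)) :=
    Finset.prod_nonneg (fun p _ => by positivity)
  have hct0 : 0 ≤ ∏ p ∈ t.primeFactors, (1 + 1 / (p : ℝ)) :=
    Finset.prod_nonneg (fun p _ => by positivity)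
  generalize ∏ p ∈ Q.primeFactors, (1 + 1 / (p : ℝ)) = cQ at *
  generalize ∏ p ∈ t.primeFactors, (1 + 1 / (p : ℝ)) = ct at *
  refine h1.trans (h2.trans ?_)
  apply add_le_add
  · rw [hmass]
    generalize SS s (z * z) = S at *
    generalize Real.log (z + 1) = L at *
    have hL2 : 0 < L ^ 2 := pow_pos hlog 2
    have hNn : (0:ℝ) ≤ N := Nat.cast_nonneg N
    rw [le_div_iff₀ hL2]
    calc (N : ℝ) * S⁻¹ * L ^ 2
        ≤ (N : ℝ) * S⁻¹ * (4 * cQ ^ 2 * ct ^ 2 * S) := by
          apply mul_le_mul_of_nonneg_left h3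
          exact mul_nonneg hNn (inv_nonneg.mpr hS.le)
      _ = 4 * cQ ^ 2 * ct ^ 2 * N := by field_simp
  · have hcard : ((s.prodPrimes.divisors.filter (fun d => d ≤ z * z)).card : ℝ) ≤ (z:ℝ) ^ 2 := by
      have : s.prodPrimes.divisors.filter (fun d => d ≤ z * z) ⊆ Finset.Icc 1 (z * z) := by
        intro d hd
        rw [Finset.mem_filter, Nat.mem_divisors] at hd
        rw [Finset.mem_Icc]
        exact ⟨Nat.pos_of_dvd_of_pos hd.1.1 (Nat.pos_of_ne_zero hd.1.2), hd.2⟩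
      have h4 := Finset.card_le_card this
      rw [Nat.card_Icc] at h4
      have h5 : ((s.prodPrimes.divisors.filter (fun d => d ≤ z * z)).card : ℝ) ≤
          ((z * z : ℕ) : ℝ) := by exact_mod_cast h4
      calc _ ≤ ((z * z : ℕ) : ℝ) := h5
        _ = (z:ℝ) ^ 2 := by push_cast; ring
    calc ∑ d1 ∈ s.prodPrimes.divisors with d1 ≤ z * z, ∑ d2 ∈ s.prodPrimes.divisors with d2 ≤ z * z,
        (s.nu d1)⁻¹ * (s.nu d2)⁻¹ * |s.rem (d1.lcm d2)|
        ≤ ∑ d1 ∈ s.prodPrimes.divisors with d1 ≤ z * z,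
          ∑ d2 ∈ s.prodPrimes.divisors with d2 ≤ z * z, (z:ℝ) ^ 8 := by
          apply Finset.sum_le_sum
          intro d1 hd1
          apply Finset.sum_le_sum
          intro d2 hd2
          rw [Finset.mem_filter, Nat.mem_divisors] at hd1 hd2
          have e1 : (s.nu d1)⁻¹ ≤ (z:ℝ) ^ 2 := by
            refine (nuf_inv_le t d1 (squarefree_of_dvd_prodPrimes hd1.1.1)).trans ?_
            have : (d1 : ℝ) ≤ ((z * z : ℕ) : ℝ) := by exact_mod_cast hd1.2
            calc (d1:ℝ) ≤ ((z * z : ℕ) : ℝ) := this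
              _ = (z:ℝ) ^ 2 := by push_cast; ring
          have e2 : (s.nu d2)⁻¹ ≤ (z:ℝ) ^ 2 := by
            refine (nuf_inv_le t d2 (squarefree_of_dvd_prodPrimes hd2.1.1)).trans ?_
            have : (d2 : ℝ) ≤ ((z * z : ℕ) : ℝ) := by exact_mod_cast hd2.2
            calc (d2:ℝ) ≤ ((z * z : ℕ) : ℝ) := this
              _ = (z:ℝ) ^ 2 := by push_cast; ring
          have e3 : |s.rem (d1.lcm d2)| ≤ (z:ℝ) ^ 4 := by
            refine (sv_rem Q t a N (z * z) hQ hQ0 _ (Nat.lcm_dvd hd1.1.1 hd2.1.1)).trans ?_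
            have h0 : d1.lcm d2 ≤ d1 * d2 := by
              rw [Nat.lcm]
              exact Nat.div_le_self _ _
            have : ((d1.lcm d2 : ℕ) : ℝ) ≤ (((z * z) * (z * z) : ℕ) : ℝ) := by
              exact_mod_cast h0.trans (Nat.mul_le_mul hd1.2 hd2.2)
            calc ((d1.lcm d2 : ℕ) : ℝ) ≤ (((z * z) * (z * z) : ℕ) : ℝ) := this
              _ = (z:ℝ) ^ 4 := by push_cast; ring
          have p2 : 0 ≤ (s.nu d2)⁻¹ := (inv_pos.mpr (nu_pos_of_dvd_prodPrimes hd2.1.1)).le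
          calc (s.nu d1)⁻¹ * (s.nu d2)⁻¹ * |s.rem (d1.lcm d2)|
              ≤ (z:ℝ) ^ 2 * (z:ℝ) ^ 2 * (z:ℝ) ^ 4 := by gcongr
            _ = (z:ℝ) ^ 8 := by ring
      _ = ((s.prodPrimes.divisors.filter (fun d => d ≤ z * z)).card : ℝ) *
          ((s.prodPrimes.divisors.filter (fun d => d ≤ z * z)).card : ℝ) * (z:ℝ) ^ 8 := by
          rw [Finset.sum_const, Finset.sum_const]
          simp only [nsmul_eq_mul]
          ring
      _ ≤ (z:ℝ) ^ 2 * (z:ℝ) ^ 2 * (z:ℝ) ^ 8 := by gcongr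
      _ = (z:ℝ) ^ 12 := by ring

end Pool.Agent.H75.PS
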