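import Pool.Agent.H75.PS.Selberg

/-!
Lower bounds for the denominator of the Selberg sieve (dimension two).
-/

set_option autoImplicit false

open Finset ArithmeticFunction
open scoped ArithmeticFunction.Moebius ArithmeticFunction.zeta

namespace Pool.Agent.H75.PS

open BoundingSieve

/-- Sum of `∏ g` over the squarefree products `≤ x` of elements of `P`. -/
noncomputable def FF (g : ℕ → ℝ) (P : Finset ℕ) (x : ℕ) : ℝ :=
  ∑ A ∈ P.powerset with ∏ p ∈ A, p ≤ x, ∏ p ∈ A, g p

theorem FF_eq (g : ℕ → ℝ) (P : Finset ℕ) (x : ℕ) :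
    FF g P x = ∑ A ∈ P.powerset, if ∏ p ∈ A, p ≤ x then ∏ p ∈ A, g p else 0 := by
  unfold FF
  rw [Finset.sum_filter]

theorem FF_insert (g : ℕ → ℝ) (P : Finset ℕ) (x p : ℕ) (hp : p ∉ P) (hp0 : 0 < p) :
    FF g (insert p P) x = FF g P x + g p * FF g P (x / p) := by
  rw [FF_eq, FF_eq, FF_eq, Finset.sum_powerset_insert hp, Finset.mul_sum]
  congr 1
  apply Finset.sum_congr rfl
  intro A hA
  rw [Finset.mem_powerset] at hA
  have hpA : p ∉ A := fun h => hp (hA h)
  rw [Finset.prod_insert hpA, Finset.prod_insert hpA]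
  have : p * ∏ q ∈ A, q ≤ x ↔ ∏ q ∈ A, q ≤ x / p := by
    rw [Nat.le_div_iff_mul_le hp0, mul_comm]
  by_cases h : ∏ q ∈ A, q ≤ x / p
  · rw [if_pos (this.mpr h), if_pos h]
  · rw [if_neg (fun h' => h (this.mp h')), if_neg h, mul_zero]

theorem FF_mono (g : ℕ → ℝ) (P : Finset ℕ) (hg : ∀ p ∈ P, 0 ≤ g p) {x y : ℕ} (h : x ≤ y) :
    FF g P x ≤ FF g P y := by
  unfold FF
  apply Finset.sum_le_sum_of_subset_of_nonneg
  · intro A hA
    simp only [Finset.mem_filter] at hA ⊢
    exact ⟨hA.1, hA.2.trans h⟩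
  · intro A hA _
    simp only [Finset.mem_filter, Finset.mem_powerset] at hA
    exact Finset.prod_nonneg (fun p hp => hg p (hA.1 hp))

theorem FF_nonneg (g : ℕ → ℝ) (P : Finset ℕ) (hg : ∀ p ∈ P, 0 ≤ g p) (x : ℕ) :
    0 ≤ FF g P x := by
  unfold FF
  apply Finset.sum_nonneg
  intro A hA
  simp only [Finset.mem_filter, Finset.mem_powerset] at hA
  exact Finset.prod_nonneg (fun p hp => hg p (hA.1 hp))

theorem FF_subset (g : ℕ → ℝ) {P P' : Finset ℕ} (hP : P ⊆ P') (hg : ∀ p ∈ P', 0 ≤ g p) (x : ℕ) :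
    FF g P x ≤ FF g P' x := by
  unfold FF
  apply Finset.sum_le_sum_of_subset_of_nonneg
  · intro A hA
    simp only [Finset.mem_filter, Finset.mem_powerset] at hA ⊢
    exact ⟨hA.1.trans hP, hA.2⟩
  · intro A hA _
    simp only [Finset.mem_filter, Finset.mem_powerset] at hA
    exact Finset.prod_nonneg (fun p hp => hg p (hA.1 hp))

theorem FF_mul (g : ℕ → ℝ) (P : Finset ℕ) :
    (∀ p ∈ P, 0 < p ∧ 2 / (p : ℝ) + 1 / (p : ℝ) ^ 2 ≤ g p) →
    ∀ x y : ℕ, FF (fun p => 1 / (p : ℝ)) P x * FF (fun p => 1 / (p : ℝ)) P y ≤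
      FF g P (x * y) := by
  classical
  induction P using Finset.induction_on with
  | empty =>
    intro _ x y
    unfold FF
    simp only [Finset.powerset_empty]
    rw [Finset.sum_filter, Finset.sum_filter, Finset.sum_filter]
    simp only [Finset.sum_singleton, Finset.prod_empty]
    by_cases hx : 1 ≤ x
    · by_cases hy : 1 ≤ y
      · have : 1 ≤ x * y := Nat.mul_pos hx hy
        simp [hx, hy, this]
      · have : y = 0 := by omega
        simp [this]
    · have : x = 0 := by omega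
      simp [this]
  | insert p P hp ih =>
    intro h x y
    have hp0 : 0 < p := (h p (Finset.mem_insert_self p P)).1
    have hgp := (h p (Finset.mem_insert_self p P)).2
    have hP : ∀ q ∈ P, 0 < q ∧ 2 / (q : ℝ) + 1 / (q : ℝ) ^ 2 ≤ g q :=
      fun q hq => h q (Finset.mem_insert_of_mem hq)
    have ih' := ih hP
    have hg : ∀ q ∈ P, 0 ≤ g q := by
      intro q hq
      refine le_trans ?_ (hP q hq).2
      positivity
    rw [FF_insert _ P x p hp hp0, FF_insert _ P y p hp hp0, FF_insert g P (x * y) p hp hp0]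
    have e1 := ih' x y
    have e2 := ih' (x / p) y
    have e3 := ih' x (y / p)
    have e4 := ih' (x / p) (y / p)
    have m2 : FF g P (x / p * y) ≤ FF g P (x * y / p) := by
      apply FF_mono g P hg
      rw [Nat.le_div_iff_mul_le hp0]
      calc x / p * y * p = (x / p * p) * y := by ring
        _ ≤ x * y := Nat.mul_le_mul_right y (Nat.div_mul_le_self x p)
    have m3 : FF g P (x * (y / p)) ≤ FF g P (x * y / p) := by
      apply FF_mono g P hg
      rw [Nat.le_div_iff_mul_le hp0]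
      calc x * (y / p) * p = x * (y / p * p) := by ring
        _ ≤ x * y := Nat.mul_le_mul_left x (Nat.div_mul_le_self y p)
    have m4 : FF g P (x / p * (y / p)) ≤ FF g P (x * y / p) := by
      refine le_trans ?_ m3
      apply FF_mono g P hg
      exact Nat.mul_le_mul_right _ (Nat.div_le_self x p)
    have hFn : 0 ≤ FF g P (x * y / p) := FF_nonneg g P hg _
    have hpr : (0:ℝ) < p := by exact_mod_cast hp0
    set a := FF (fun p => 1 / (p : ℝ)) P x
    set b := FF (fun p => 1 / (p : ℝ)) P y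
    set a' := FF (fun p => 1 / (p : ℝ)) P (x / p)
    set b' := FF (fun p => 1 / (p : ℝ)) P (y / p)
    set F := FF g P (x * y / p)
    calc (a + 1 / (p:ℝ) * a') * (b + 1 / (p:ℝ) * b')
        = a * b + 1 / (p:ℝ) * (a' * b) + 1 / (p:ℝ) * (a * b') + 1 / (p:ℝ) ^ 2 * (a' * b') := by
          field_simp
          ring
      _ ≤ FF g P (x * y) + 1 / (p:ℝ) * F + 1 / (p:ℝ) * F + 1 / (p:ℝ) ^ 2 * F := by
          have := e2.trans m2
          have := e3.trans m3
          have := e4.trans m4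
          gcongr
      _ = FF g P (x * y) + (2 / (p:ℝ) + 1 / (p:ℝ) ^ 2) * F := by ring
      _ ≤ FF g P (x * y) + g p * F := by gcongr

theorem FF_erase (P : Finset ℕ) (x p : ℕ) (hp0 : 0 < p) :
    FF (fun p => 1 / (p : ℝ)) P x ≤ (1 + 1 / (p : ℝ)) * FF (fun p => 1 / (p : ℝ)) (P.erase p) x := by
  have hn : 0 ≤ FF (fun p => 1 / (p : ℝ)) (P.erase p) x :=
    FF_nonneg _ _ (fun q _ => by positivity) _
  by_cases hp : p ∈ P
  · conv_lhs => rw [← Finset.insert_erase hp]
    rw [FF_insert _ _ _ _ (Finset.notMem_erase p P) hp0]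
    have : FF (fun p => 1 / (p : ℝ)) (P.erase p) (x / p) ≤
        FF (fun p => 1 / (p : ℝ)) (P.erase p) x :=
      FF_mono _ _ (fun q _ => by positivity) (Nat.div_le_self x p)
    rw [add_mul, one_mul]
    gcongr
  · rw [Finset.erase_eq_of_notMem hp] at hn ⊢
    have : (0:ℝ) ≤ 1 / (p:ℝ) := by positivity
    nlinarith

theorem FF_sdiff (P B : Finset ℕ) (x : ℕ) (hB : ∀ p ∈ B, 0 < p) :
    FF (fun p => 1 / (p : ℝ)) P x ≤
      (∏ p ∈ B, (1 + 1 / (p : ℝ))) * FF (fun p => 1 / (p : ℝ)) (P \ B) x := by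
  classical
  induction B using Finset.induction_on with
  | empty => simp
  | insert p B hp ih =>
    have ih' := ih (fun q hq => hB q (Finset.mem_insert_of_mem hq))
    rw [Finset.prod_insert hp]
    have h1 := FF_erase (P \ B) x p (hB p (Finset.mem_insert_self p B))
    have h2 : (P \ B).erase p = P \ insert p B := by
      ext q
      simp only [Finset.mem_erase, Finset.mem_sdiff, Finset.mem_insert]
      tauto
    rw [h2] at h1
    have h3 : 0 ≤ ∏ p ∈ B, (1 + 1 / (p : ℝ)) := Finset.prod_nonneg (fun q _ => by positivity)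
    calc FF (fun p => 1 / (p : ℝ)) P x
        ≤ (∏ p ∈ B, (1 + 1 / (p : ℝ))) * FF (fun p => 1 / (p : ℝ)) (P \ B) x := ih'
      _ ≤ (∏ p ∈ B, (1 + 1 / (p : ℝ))) *
          ((1 + 1 / (p : ℝ)) * FF (fun p => 1 / (p : ℝ)) (P \ insert p B) x) := by gcongr
      _ = _ := by ring

theorem sum_inv_sq_le_two (z : ℕ) : ∑ k ∈ Finset.Icc 1 z, 1 / (k : ℝ) ^ 2 ≤ 2 := by
  have h : ∀ z : ℕ, 1 ≤ z → ∑ k ∈ Finset.Icc 1 z, 1 / (k : ℝ) ^ 2 ≤ 2 - 1 / (z : ℝ) := by
    intro z hz
    induction z, hz using Nat.le_induction with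
    | base => simp; norm_num
    | succ n hn ih =>
      rw [Finset.sum_Icc_succ_top (by omega)]
      have hn' : (0:ℝ) < n := by exact_mod_cast hn
      have : 1 / ((n + 1 : ℕ) : ℝ) ^ 2 ≤ 1 / (n:ℝ) - 1 / ((n + 1 : ℕ) : ℝ) := by
        push_cast
        rw [div_sub_div _ _ (by positivity) (by positivity)]
        rw [div_le_div_iff₀ (by positivity) (by positivity)]
        nlinarith
      linarith
  rcases Nat.eq_zero_or_pos z with rfl | hz
  · simp
  · refine (h z hz).trans ?_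
    have : (0:ℝ) ≤ 1 / (z:ℝ) := by positivity
    linarith

theorem harmonic_le (z : ℕ) :
    ∑ a ∈ Finset.Icc 1 z, 1 / (a : ℝ) ≤
      2 * FF (fun p => 1 / (p : ℝ)) (Nat.primesLE z) z := by
  classical
  -- decompose a = b ^ 2 * e
  have hdec : ∀ a : ℕ, ∃ be : ℕ × ℕ, be.1 ^ 2 * be.2 = a ∧ Squarefree be.2 := by
    intro a
    obtain ⟨e, b, h1, h2⟩ := Nat.sq_mul_squarefree a
    exact ⟨(b, e), h1, h2⟩
  choose φ hφ using hdec
  set T : Finset (Finset ℕ) := (Nat.primesLE z).powerset.filter (fun A => ∏ p ∈ A, p ≤ z) with hT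
  have h1 : ∑ a ∈ Finset.Icc 1 z, 1 / (a : ℝ) =
      ∑ a ∈ Finset.Icc 1 z, (1 / ((φ a).1 : ℝ) ^ 2) *
        ∏ p ∈ (φ a).2.primeFactors, (1 / (p : ℝ)) := by
    apply Finset.sum_congr rfl
    intro a ha
    have h := hφ a
    rw [Finset.prod_div_distrib, Finset.prod_const_one]
    have h3 : ∏ p ∈ (φ a).2.primeFactors, (p : ℝ) = ((φ a).2 : ℝ) := by
      rw [← Nat.cast_prod, Nat.prod_primeFactors_of_squarefree h.2]
    rw [h3]
    have h4 : (a : ℝ) = ((φ a).1 : ℝ) ^ 2 * ((φ a).2 : ℝ) := by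
      exact_mod_cast h.1.symm
    rw [h4, one_div_mul_one_div_rev, mul_comm]
  rw [h1]
  have h2 : ∑ a ∈ Finset.Icc 1 z, (1 / ((φ a).1 : ℝ) ^ 2) *
        ∏ p ∈ (φ a).2.primeFactors, (1 / (p : ℝ)) ≤
      ∑ kA ∈ (Finset.Icc 1 z) ×ˢ T, (1 / ((kA.1 : ℕ) : ℝ) ^ 2) * ∏ p ∈ kA.2, (1 / (p : ℝ)) := by
    have hinj : Set.InjOn (fun a => ((φ a).1, (φ a).2.primeFactors)) (Finset.Icc 1 z : Set ℕ) := by
      intro a _ b _ hab
      simp only [Prod.mk.injEq] at hab
      have h3 := Nat.prod_primeFactors_of_squarefree (hφ a).2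
      have h4 := Nat.prod_primeFactors_of_squarefree (hφ b).2
      rw [← (hφ a).1, ← (hφ b).1, hab.1, ← h3, ← h4, hab.2]
    rw [← Finset.sum_image (s := Finset.Icc 1 z)
      (g := fun a => ((φ a).1, (φ a).2.primeFactors))
      (f := fun kA : ℕ × Finset ℕ => (1 / ((kA.1 : ℕ) : ℝ) ^ 2) * ∏ p ∈ kA.2, (1 / (p : ℝ))) hinj]
    apply Finset.sum_le_sum_of_subset_of_nonneg
    · intro kA hkA
      rw [Finset.mem_image] at hkA
      obtain ⟨a, ha, rfl⟩ := hkA
      rw [Finset.mem_Icc] at ha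
      have h := hφ a
      have hb0 : (φ a).1 ≠ 0 := by
        intro h0
        rw [h0] at h
        have := h.1
        simp at this
        omega
      have he0 : (φ a).2 ≠ 0 := h.2.ne_zero
      have hea : (φ a).2 ≤ a := by
        calc (φ a).2 = 1 * (φ a).2 := by ring
          _ ≤ (φ a).1 ^ 2 * (φ a).2 := by
            apply Nat.mul_le_mul_right
            exact Nat.one_le_pow _ _ (Nat.pos_of_ne_zero hb0)
          _ = a := h.1
      have hba : (φ a).1 ≤ a := by
        calc (φ a).1 ≤ (φ a).1 ^ 2 * (φ a).2 := by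
              have : (φ a).1 ≤ (φ a).1 ^ 2 := Nat.le_self_pow (by norm_num) _
              exact this.trans (Nat.le_mul_of_pos_right _ (Nat.pos_of_ne_zero he0))
          _ = a := h.1
      rw [Finset.mem_product, Finset.mem_Icc, hT, Finset.mem_filter, Finset.mem_powerset]
      refine ⟨⟨Nat.one_le_iff_ne_zero.mpr hb0, hba.trans ha.2⟩, ?_, ?_⟩
      · intro p hp
        have hp1 := Nat.prime_of_mem_primeFactors hp
        have hp2 := Nat.le_of_mem_primeFactors hp
        rw [Nat.mem_primesLE]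
        exact ⟨(hp2.trans hea).trans ha.2, hp1⟩
      · rw [Nat.prod_primeFactors_of_squarefree h.2]
        exact hea.trans ha.2
    · intro kA _ _
      apply mul_nonneg
      · positivity
      · exact Finset.prod_nonneg (fun p _ => by positivity)
  refine h2.trans ?_
  rw [Finset.sum_product]
  simp only
  rw [← Finset.sum_mul_sum]
  have h3 : ∑ A ∈ T, ∏ p ∈ A, (1 / (p : ℝ)) = FF (fun p => 1 / (p : ℝ)) (Nat.primesLE z) z := rfl
  rw [h3]
  have h4 : 0 ≤ FF (fun p => 1 / (p : ℝ)) (Nat.primesLE z) z :=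
    FF_nonneg _ _ (fun q _ => by positivity) _
  have h5 := sum_inv_sq_le_two z
  gcongr

end Pool.Agent.H75.PS
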