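import Pool.Agent.H75.PS.Pair
import Pool.Agent.H75.PS.Moment
import Pool.Agent.H24.MR.Interface

/-!
Module [PS]: the difference set of a dense set of primes in a progression.
-/

set_option autoImplicit false

open Finset Filter

namespace Pool.Agent.H75.PS

/-- count of pairs at distance `Q t`, with `2 ^ m ≤ Q n`. -/
noncomputable def cnt (Q m t : ℕ) : ℕ :=
  ((Finset.Ico ((2 ^ m + (Q - 1)) / Q) ((2 ^ m + (Q - 1)) / Q + (2 ^ m / Q + 1))).filter
      (fun n => (Q * n + 1).Prime ∧ (Q * n + 1 + Q * t).Prime)).card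

theorem ceil_mul (Q m : ℕ) (hQ : 0 < Q) : 2 ^ m ≤ Q * ((2 ^ m + (Q - 1)) / Q) := by
  have h := Nat.div_add_mod (2 ^ m + (Q - 1)) Q
  have h2 := Nat.mod_lt (2 ^ m + (Q - 1)) hQ
  omega

theorem growth (Q : ℕ) : ∃ m₁ : ℕ, ∀ m, m₁ ≤ m → 96 ≤ m ∧ Q ≤ 2 ^ m ∧
    ((2:ℝ) ^ (m / 48)) ^ 12 * (Q * (m:ℝ) ^ 2) ≤ 2 ^ m ∧ 4 * Q * (m:ℝ) ^ 4 ≤ 2 ^ m := by
  have h2 : (1:ℝ) < Real.sqrt 2 := by
    rw [show (1:ℝ) = Real.sqrt 1 by simp]
    exact Real.sqrt_lt_sqrt (by norm_num) (by norm_num)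
  have a1 := (tendsto_pow_const_div_const_pow_of_one_lt 2 h2).const_mul (Q:ℝ)
  have a2 := (tendsto_pow_const_div_const_pow_of_one_lt 4 (show (1:ℝ) < 2 by norm_num)).const_mul
    (4 * Q:ℝ)
  rw [mul_zero] at a1 a2
  have b1 := a1.eventually (eventually_le_nhds (show (0:ℝ) < 1 by norm_num))
  have b2 := a2.eventually (eventually_le_nhds (show (0:ℝ) < 1 by norm_num))
  have b3 : ∀ᶠ m : ℕ in atTop, Q ≤ 2 ^ m := by
    filter_upwards [eventually_ge_atTop Q] with m hm
    exact hm.trans (Nat.lt_two_pow_self).le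
  have b := ((eventually_ge_atTop 96).and (b3.and (b1.and b2)))
  rw [eventually_atTop] at b
  obtain ⟨m₁, hm₁⟩ := b
  refine ⟨m₁, fun m hm => ?_⟩
  obtain ⟨c0, c1, c2, c3⟩ := hm₁ m hm
  refine ⟨c0, c1, ?_, ?_⟩
  · have hs : (0:ℝ) < Real.sqrt 2 ^ m := by positivity
    have e1 : (Q:ℝ) * (m:ℝ) ^ 2 ≤ Real.sqrt 2 ^ m := by
      rw [← mul_div_assoc, div_le_one hs] at c2
      exact c2
    have e2 : ((2:ℝ) ^ (m / 48)) ^ 12 ≤ Real.sqrt 2 ^ m := by
      have : ((2:ℝ) ^ (m / 48)) ^ 12 = Real.sqrt 2 ^ (2 * (m / 48 * 12)) := by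
        rw [pow_mul (Real.sqrt 2), Real.sq_sqrt (by norm_num), pow_mul]
      rw [this]
      apply pow_le_pow_right₀ h2.le
      omega
    calc ((2:ℝ) ^ (m / 48)) ^ 12 * (Q * (m:ℝ) ^ 2) ≤ Real.sqrt 2 ^ m * Real.sqrt 2 ^ m := by
          gcongr
      _ = 2 ^ m := by
          rw [← mul_pow, Real.mul_self_sqrt (by norm_num)]
  · have hs : (0:ℝ) < 2 ^ m := by positivity
    rw [← mul_div_assoc, div_le_one hs] at c3
    exact c3

/-- size of the pair counts -/
theorem cnt_le (Q m t : ℕ) (hQ : Even Q) (hQ0 : 0 < Q) (ht : 0 < t) (h96 : 96 ≤ m)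
    (hQm : Q ≤ 2 ^ m)
    (h3 : ((2:ℝ) ^ (m / 48)) ^ 12 * (Q * (m:ℝ) ^ 2) ≤ 2 ^ m) :
    (cnt Q m t : ℝ) ≤ 200000 * (2 ^ m * Q / ((Nat.totient Q : ℝ) ^ 2 * (m:ℝ) ^ 2)) *
      (∏ p ∈ t.primeFactors, (1 + 1 / (p : ℝ))) ^ 2 := by
  set z := 2 ^ (m / 48) with hz
  have hz1 : 1 ≤ z := Nat.one_le_two_pow
  have hzz : z * z ≤ Q * ((2 ^ m + (Q - 1)) / Q) := by
    refine le_trans ?_ (ceil_mul Q m hQ0)
    rw [hz, ← pow_add]
    exact Nat.pow_le_pow_right (by norm_num) (by omega)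
  have h := pair_bound Q t ((2 ^ m + (Q - 1)) / Q) (2 ^ m / Q + 1) z hQ hQ0 ht hz1 hzz
  set c := ∏ p ∈ t.primeFactors, (1 + 1 / (p : ℝ)) with hc
  have hc1 : 1 ≤ c := by
    calc (1:ℝ) = ∏ p ∈ t.primeFactors, (1:ℝ) := by simp
      _ ≤ _ := by
        apply Finset.prod_le_prod
        · intro p _
          exact zero_le_one
        · intro p _
          have : (0:ℝ) ≤ 1 / (p:ℝ) := by positivity
          linarith
  set cQ := ∏ p ∈ Q.primeFactors, (1 + 1 / (p : ℝ)) with hcQ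
  have hcQ0 : 0 ≤ cQ := Finset.prod_nonneg (fun p _ => by positivity)
  have hQr : (0:ℝ) < Q := by exact_mod_cast hQ0
  have hφ : (0:ℝ) < (Nat.totient Q : ℝ) := by exact_mod_cast Nat.totient_pos.mpr hQ0
  have hφQ : (Nat.totient Q : ℝ) ≤ Q := by exact_mod_cast Nat.totient_le Q
  have hcQle : cQ ≤ Q / (Nat.totient Q : ℝ) := by
    rw [le_div_iff₀ hφ]
    exact prod_mul_totient_le Q hQ0
  have hm0 : (0:ℝ) < m := by
    have : 0 < m := by omega
    exact_mod_cast this
  have hM : (0:ℝ) < (2:ℝ) ^ m := by positivity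
  -- log bound
  have hlog : (m : ℝ) / 150 ≤ Real.log (z + 1) := by
    have h1 : Real.log ((2:ℝ) ^ (m / 48)) ≤ Real.log (z + 1) := by
      apply Real.log_le_log (by positivity)
      rw [hz]; push_cast; linarith
    refine le_trans ?_ h1
    rw [Real.log_pow]
    have h2 : (m:ℝ) / 96 ≤ ((m / 48 : ℕ) : ℝ) := by
      have : m ≤ 96 * (m / 48) := by omega
      have : (m:ℝ) ≤ 96 * ((m / 48 : ℕ) : ℝ) := by exact_mod_cast this
      linarith
    have h4 := Real.log_two_gt_d9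
    calc (m : ℝ) / 150 ≤ (m:ℝ) / 96 * 0.6931471803 := by
          linarith
      _ ≤ ((m / 48 : ℕ) : ℝ) * Real.log 2 := by
          gcongr
  have hN : ((2 ^ m / Q + 1 : ℕ) : ℝ) ≤ 2 * 2 ^ m / Q := by
    have h1 : ((2 ^ m / Q : ℕ) : ℝ) ≤ (2:ℝ) ^ m / Q := by
      have := @Nat.cast_div_le ℝ _ _ _ (2 ^ m) Q
      push_cast at this
      exact this
    have h2 : (1:ℝ) ≤ (2:ℝ) ^ m / Q := by
      rw [le_div_iff₀ hQr, one_mul]
      exact_mod_cast hQm
    push_cast
    calc ((2 ^ m / Q : ℕ) : ℝ) + 1 ≤ (2:ℝ) ^ m / Q + (2:ℝ) ^ m / Q := by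
          linarith
      _ = _ := by ring
  set X := (2:ℝ) ^ m * Q / ((Nat.totient Q : ℝ) ^ 2 * (m:ℝ) ^ 2) with hX
  have hX0 : 0 < X := by positivity
  have hmain : 4 * cQ ^ 2 * c ^ 2 * ((2 ^ m / Q + 1 : ℕ) : ℝ) / Real.log (z + 1) ^ 2 ≤
      180000 * X * c ^ 2 := by
    have hl0 : 0 < (m:ℝ) / 150 := by positivity
    calc 4 * cQ ^ 2 * c ^ 2 * ((2 ^ m / Q + 1 : ℕ) : ℝ) / Real.log (z + 1) ^ 2
        ≤ 4 * (Q / (Nat.totient Q : ℝ)) ^ 2 * c ^ 2 * (2 * 2 ^ m / Q) / ((m:ℝ) / 150) ^ 2 := by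
          gcongr
      _ = 180000 * X * c ^ 2 := by
          rw [hX]
          field_simp
          ring
  have herr : (z:ℝ) ^ 12 ≤ X := by
    rw [hX, le_div_iff₀ (by positivity)]
    have hz' : (z:ℝ) = (2:ℝ) ^ (m / 48) := by rw [hz]; push_cast; rfl
    rw [hz']
    calc ((2:ℝ) ^ (m / 48)) ^ 12 * ((Nat.totient Q : ℝ) ^ 2 * (m:ℝ) ^ 2)
        ≤ ((2:ℝ) ^ (m / 48)) ^ 12 * ((Q : ℝ) ^ 2 * (m:ℝ) ^ 2) := by gcongr
      _ = (((2:ℝ) ^ (m / 48)) ^ 12 * (Q * (m:ℝ) ^ 2)) * Q := by ring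
      _ ≤ 2 ^ m * Q := by gcongr
  have hc2 : 1 ≤ c ^ 2 := one_le_pow₀ hc1
  calc (cnt Q m t : ℝ) ≤ 4 * cQ ^ 2 * c ^ 2 * ((2 ^ m / Q + 1 : ℕ) : ℝ) / Real.log (z + 1) ^ 2 +
        (z:ℝ) ^ 12 := h
    _ ≤ 180000 * X * c ^ 2 + X * c ^ 2 := by
        apply add_le_add hmain
        refine herr.trans ?_
        nlinarith
    _ ≤ 200000 * X * c ^ 2 := by nlinarith [mul_pos hX0 (show 0 < c ^ 2 by linarith)]

theorem statementPS : Pool.Agent.H24.MR.StatementPS := by
  classical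
  intro c₀ hc₀
  have hC := CC_nonneg
  set K : ℝ := 2 + 2 * 200000 ^ 2 * CC ^ 4 with hK
  have hK0 : 0 < K := by positivity
  refine ⟨c₀ ^ 4 / K, by positivity, ?_⟩
  intro Q hQ0 hQe
  obtain ⟨m₁, hm₁⟩ := growth Q
  refine ⟨m₁, fun m hm G hG hGc => ?_⟩
  obtain ⟨h96, hQm, hg3, hg4⟩ := hm₁ m hm
  have hQr : (0:ℝ) < Q := by exact_mod_cast hQ0
  have hφ : (0:ℝ) < (Nat.totient Q : ℝ) := by exact_mod_cast Nat.totient_pos.mpr hQ0
  have hφQ : (Nat.totient Q : ℝ) ≤ Q := by exact_mod_cast Nat.totient_le Q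
  have hm0 : (0:ℝ) < m := by
    have : 0 < m := by omega
    exact_mod_cast this
  have hM : (0:ℝ) < (2:ℝ) ^ m := by positivity
  -- structure of elements
  have hstr : ∀ p ∈ G, ∃ n, p = Q * n + 1 ∧ (2 ^ m + (Q - 1)) / Q ≤ n ∧
      n < (2 ^ m + (Q - 1)) / Q + (2 ^ m / Q + 1) := by
    intro p hp
    obtain ⟨hpp, hpQ, h1, h2⟩ := hG p hp
    have h3 : Q ∣ p - 1 := (Nat.modEq_iff_dvd' hpp.one_lt.le).mp hpQ.symm
    obtain ⟨n, hn⟩ := h3
    have hpn : p = Q * n + 1 := by have := hpp.one_lt; omega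
    refine ⟨n, hpn, ?_, ?_⟩
    · rw [Nat.div_le_iff_le_mul_add_pred hQ0]
      omega
    · have e1 := ceil_mul Q m hQ0
      by_contra hcon
      rw [not_lt] at hcon
      have e2 : Q * ((2 ^ m + (Q - 1)) / Q + (2 ^ m / Q + 1)) ≤ Q * n := Nat.mul_le_mul_left Q hcon
      have e3 : 2 ^ m < Q * (2 ^ m / Q + 1) := by
        have := Nat.lt_mul_div_succ (2 ^ m) hQ0
        exact this
      rw [Nat.mul_add] at e2
      have e4 : 2 ^ (m + 1) = 2 * 2 ^ m := by ring
      omega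
  set D := (G ×ˢ G).image (fun pq : ℕ × ℕ => (pq.1 : ℤ) - pq.2) with hD
  set r : ℤ → ℕ := fun s => ((G ×ˢ G).filter (fun pq : ℕ × ℕ => (pq.1 : ℤ) - pq.2 = s)).card
    with hr
  have hsum : ∑ s ∈ D, r s = G.card ^ 2 := by
    have := Finset.card_eq_sum_card_image (fun pq : ℕ × ℕ => (pq.1 : ℤ) - pq.2) (G ×ˢ G)
    rw [Finset.card_product] at this
    rw [sq, this]
  have hCS : (G.card : ℝ) ^ 4 ≤ D.card * ∑ s ∈ D, (r s : ℝ) ^ 2 := by
    have h1 := sq_sum_le_card_mul_sum_sq (s := D) (f := fun s => (r s : ℝ))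
    have h2 : ∑ s ∈ D, (r s : ℝ) = (G.card : ℝ) ^ 2 := by exact_mod_cast hsum
    rw [h2] at h1
    calc (G.card : ℝ) ^ 4 = ((G.card : ℝ) ^ 2) ^ 2 := by ring
      _ ≤ _ := h1
  -- bound for r
  set F : ℕ → ℝ := fun t => if t = 0 then (G.card : ℝ) ^ 2 else (cnt Q m t : ℝ) ^ 2 with hF
  have hFn : ∀ t, 0 ≤ F t := by
    intro t
    rw [hF]
    simp only
    split_ifs <;> positivity
  have hDs : ∀ s ∈ D, ∃ k : ℕ, (s = (Q * k : ℕ) ∨ s = -((Q * k : ℕ) : ℤ)) ∧ k ≤ 2 ^ m / Q := by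
    intro s hs
    rw [hD, Finset.mem_image] at hs
    obtain ⟨⟨p, q⟩, hpq, rfl⟩ := hs
    rw [Finset.mem_product] at hpq
    obtain ⟨n1, hp1, hp2, hp3⟩ := hstr p hpq.1
    obtain ⟨n2, hq1, hq2, hq3⟩ := hstr q hpq.2
    simp only
    rcases le_total n2 n1 with hle | hle
    · refine ⟨n1 - n2, Or.inl ?_, by omega⟩
      obtain ⟨k, rfl⟩ := Nat.exists_eq_add_of_le hle
      rw [hp1, hq1]
      push_cast
      simp
      ring
    · refine ⟨n2 - n1, Or.inr ?_, by omega⟩
      obtain ⟨k, rfl⟩ := Nat.exists_eq_add_of_le hle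
      rw [hp1, hq1]
      push_cast
      simp
      ring
  have hrF : ∀ s ∈ D, (r s : ℝ) ^ 2 ≤ F (s.natAbs / Q) := by
    intro s hs
    obtain ⟨k, hk, hkT⟩ := hDs s hs
    have hk' : s.natAbs / Q = k := by
      rcases hk with hk | hk
      · rw [hk, Int.natAbs_natCast, Nat.mul_div_cancel_left k hQ0]
      · rw [hk, Int.natAbs_neg, Int.natAbs_natCast, Nat.mul_div_cancel_left k hQ0]
    rw [hk']
    rw [hF]
    simp only
    split_ifs with hk0
    · -- s = 0
      have hs0 : s = 0 := by rcases hk with hk | hk <;> simp [hk, hk0]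
      have : r s ≤ G.card := by
        rw [hr]
        simp only
        apply Finset.card_le_card_of_injOn (fun pq : ℕ × ℕ => pq.1)
        · intro pq hpq
          rw [Finset.mem_coe, Finset.mem_filter, Finset.mem_product] at hpq
          exact hpq.1.1
        · intro a ha b hb hab
          rw [Finset.mem_coe, Finset.mem_filter] at ha hb
          have h1 := ha.2
          have h2 := hb.2
          rw [hs0] at h1 h2
          simp only at hab
          ext
          · exact hab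
          · omega
      have : (r s : ℝ) ≤ G.card := by exact_mod_cast this
      gcongr
    · have : r s ≤ cnt Q m k := by
        rw [hr]
        simp only
        unfold cnt
        rcases hk with hk | hk
        · apply Finset.card_le_card_of_injOn (fun pq : ℕ × ℕ => (pq.2 - 1) / Q)
          · intro pq hpq
            rw [Finset.mem_coe, Finset.mem_filter, Finset.mem_product] at hpq
            obtain ⟨n1, hp1, hp2, hp3⟩ := hstr pq.1 hpq.1.1
            obtain ⟨n2, hq1, hq2, hq3⟩ := hstr pq.2 hpq.1.2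
            have hn : (pq.2 - 1) / Q = n2 := by
              rw [hq1, Nat.add_sub_cancel, Nat.mul_div_cancel_left _ hQ0]
            rw [Finset.mem_coe, Finset.mem_filter, Finset.mem_Ico]
            simp only [hn]
            refine ⟨⟨hq2, hq3⟩, ?_, ?_⟩
            · rw [← hq1]; exact (hG _ hpq.1.2).1
            · have : Q * n2 + 1 + Q * k = pq.1 := by
                have h5 := hpq.2
                rw [hk, hq1] at h5
                push_cast at h5
                have h6 : ((pq.1 : ℕ) : ℤ) = ((Q * n2 + 1 + Q * k : ℕ) : ℤ) := by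
                  push_cast; linarith
                exact_mod_cast h6.symm
              rw [this]; exact (hG _ hpq.1.1).1
          · intro a ha b hb hab
            rw [Finset.mem_coe, Finset.mem_filter, Finset.mem_product] at ha hb
            obtain ⟨n2, hq1, _, _⟩ := hstr a.2 ha.1.2
            obtain ⟨n3, hq2, _, _⟩ := hstr b.2 hb.1.2
            simp only at hab
            rw [hq1, hq2, Nat.add_sub_cancel, Nat.add_sub_cancel, Nat.mul_div_cancel_left _ hQ0,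
              Nat.mul_div_cancel_left _ hQ0] at hab
            have h2 : a.2 = b.2 := by rw [hq1, hq2, hab]
            have h1 := ha.2
            have h3 := hb.2
            ext
            · omega
            · exact h2
        · apply Finset.card_le_card_of_injOn (fun pq : ℕ × ℕ => (pq.1 - 1) / Q)
          · intro pq hpq
            rw [Finset.mem_coe, Finset.mem_filter, Finset.mem_product] at hpq
            obtain ⟨n1, hp1, hp2, hp3⟩ := hstr pq.1 hpq.1.1
            obtain ⟨n2, hq1, hq2, hq3⟩ := hstr pq.2 hpq.1.2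
            have hn : (pq.1 - 1) / Q = n1 := by
              rw [hp1, Nat.add_sub_cancel, Nat.mul_div_cancel_left _ hQ0]
            rw [Finset.mem_coe, Finset.mem_filter, Finset.mem_Ico]
            simp only [hn]
            refine ⟨⟨hp2, hp3⟩, ?_, ?_⟩
            · rw [← hp1]; exact (hG _ hpq.1.1).1
            · have : Q * n1 + 1 + Q * k = pq.2 := by
                have h5 := hpq.2
                rw [hk, hp1] at h5
                push_cast at h5
                have h6 : ((pq.2 : ℕ) : ℤ) = ((Q * n1 + 1 + Q * k : ℕ) : ℤ) := by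
                  push_cast; linarith
                exact_mod_cast h6.symm
              rw [this]; exact (hG _ hpq.1.2).1
          · intro a ha b hb hab
            rw [Finset.mem_coe, Finset.mem_filter, Finset.mem_product] at ha hb
            obtain ⟨n2, hq1, _, _⟩ := hstr a.1 ha.1.1
            obtain ⟨n3, hq2, _, _⟩ := hstr b.1 hb.1.1
            simp only at hab
            rw [hq1, hq2, Nat.add_sub_cancel, Nat.add_sub_cancel, Nat.mul_div_cancel_left _ hQ0,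
              Nat.mul_div_cancel_left _ hQ0] at hab
            have h2 : a.1 = b.1 := by rw [hq1, hq2, hab]
            have h1 := ha.2
            have h3 := hb.2
            ext
            · exact h2
            · omega
      have h7 : (r s : ℝ) ≤ cnt Q m k := Nat.cast_le.mpr this
      exact pow_le_pow_left₀ (Nat.cast_nonneg _) h7 2
  -- sum over D
  set T := 2 ^ m / Q with hT
  have hDF : ∑ s ∈ D, F (s.natAbs / Q) ≤ ∑ t ∈ Finset.range (T + 1), 2 * F t := by
    have hmaps : ∀ s ∈ D, s.natAbs / Q ∈ Finset.range (T + 1) := by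
      intro s hs
      obtain ⟨k, hk, hkT⟩ := hDs s hs
      have hk' : s.natAbs / Q = k := by
        rcases hk with hk | hk
        · rw [hk, Int.natAbs_natCast, Nat.mul_div_cancel_left k hQ0]
        · rw [hk, Int.natAbs_neg, Int.natAbs_natCast, Nat.mul_div_cancel_left k hQ0]
      rw [hk', Finset.mem_range]
      omega
    rw [← Finset.sum_fiberwise_of_maps_to hmaps]
    apply Finset.sum_le_sum
    intro t _
    have h1 : ∀ s ∈ D.filter (fun s => s.natAbs / Q = t), F (s.natAbs / Q) = F t := by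
      intro s hs
      rw [Finset.mem_filter] at hs
      rw [hs.2]
    rw [Finset.sum_congr rfl h1, Finset.sum_const, nsmul_eq_mul]
    have h2 : (D.filter (fun s => s.natAbs / Q = t)).card ≤ 2 := by
      have hsub : D.filter (fun s => s.natAbs / Q = t) ⊆
          {((Q * t : ℕ) : ℤ), -((Q * t : ℕ) : ℤ)} := by
        intro s hs
        rw [Finset.mem_filter] at hs
        obtain ⟨k, hk, hkT⟩ := hDs s hs.1
        have hk' : s.natAbs / Q = k := by
          rcases hk with hk | hk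
          · rw [hk, Int.natAbs_natCast, Nat.mul_div_cancel_left k hQ0]
          · rw [hk, Int.natAbs_neg, Int.natAbs_natCast, Nat.mul_div_cancel_left k hQ0]
        have : k = t := by rw [← hk', hs.2]
        rw [Finset.mem_insert, Finset.mem_singleton, ← this]
        exact hk
      exact (Finset.card_le_card hsub).trans Finset.card_le_two
    have h3 : ((D.filter (fun s => s.natAbs / Q = t)).card : ℝ) ≤ 2 := by exact_mod_cast h2
    have := hFn t
    gcongr
  set X := (2:ℝ) ^ m * Q / ((Nat.totient Q : ℝ) ^ 2 * (m:ℝ) ^ 2) with hX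
  have hX0 : 0 < X := by positivity
  have hTle : (T : ℝ) ≤ (2:ℝ) ^ m / Q := by
    have := @Nat.cast_div_le ℝ _ _ _ (2 ^ m) Q
    push_cast at this
    rw [hT]
    exact this
  have hFsum : ∑ t ∈ Finset.range (T + 1), 2 * F t ≤
      2 * (G.card : ℝ) ^ 2 + 2 * 200000 ^ 2 * CC ^ 4 * (X ^ 2 * ((2:ℝ) ^ m / Q)) := by
    rw [Finset.sum_range_succ', add_comm]
    apply add_le_add
    · rw [hF]; simp
    · calc ∑ t ∈ Finset.range T, 2 * F (t + 1)
          = ∑ t ∈ Finset.Icc 1 T, 2 * F t := by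
            rw [Finset.range_eq_Ico, Finset.sum_Ico_add' (fun t => 2 * F t) 0 T 1]
            apply Finset.sum_congr _ (fun _ _ => rfl)
            ext x
            simp only [Finset.mem_Ico, Finset.mem_Icc]
            omega
        _ ≤ ∑ t ∈ Finset.Icc 1 T, 2 * (200000 ^ 2 * X ^ 2 *
              (∏ p ∈ t.primeFactors, (1 + 1 / (p : ℝ))) ^ 4) := by
            apply Finset.sum_le_sum
            intro t ht
            rw [Finset.mem_Icc] at ht
            have ht0 : t ≠ 0 := by omega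
            have h1 := cnt_le Q m t hQe hQ0 (by omega) h96 hQm hg3
            have h0 : (0:ℝ) ≤ cnt Q m t := by positivity
            have h2 : F t = (cnt Q m t : ℝ) ^ 2 := by rw [hF]; simp [ht0]
            rw [h2]
            have h3 : (cnt Q m t : ℝ) ^ 2 ≤
              (200000 * X * (∏ p ∈ t.primeFactors, (1 + 1 / (p : ℝ))) ^ 2) ^ 2 := by gcongr
            calc 2 * (cnt Q m t : ℝ) ^ 2 ≤
              2 * (200000 * X * (∏ p ∈ t.primeFactors, (1 + 1 / (p : ℝ))) ^ 2) ^ 2 := by gcongr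
              _ = _ := by ring
        _ = 2 * 200000 ^ 2 * X ^ 2 * ∑ t ∈ Finset.Icc 1 T,
              (∏ p ∈ t.primeFactors, (1 + 1 / (p : ℝ))) ^ 4 := by
            rw [Finset.mul_sum]
            apply Finset.sum_congr rfl
            intro t _
            ring
        _ ≤ 2 * 200000 ^ 2 * X ^ 2 * (CC ^ 4 * T) := by
            have := moment T
            gcongr
        _ ≤ 2 * 200000 ^ 2 * X ^ 2 * (CC ^ 4 * ((2:ℝ) ^ m / Q)) := by gcongr
        _ = _ := by ring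
  set Y := X ^ 2 * ((2:ℝ) ^ m / Q) with hY
  have hY0 : 0 < Y := by positivity
  -- trivial bound for G
  have hGle : (G.card : ℝ) ≤ 2 * 2 ^ m / Q := by
    have h1 : G.card ≤ (2 ^ m / Q + 1) := by
      have h2 : G.card ≤ (Finset.Ico ((2 ^ m + (Q - 1)) / Q)
          ((2 ^ m + (Q - 1)) / Q + (2 ^ m / Q + 1))).card := by
        apply Finset.card_le_card_of_injOn (fun p => (p - 1) / Q)
        · intro p hp
          obtain ⟨n, hn1, hn2, hn3⟩ := hstr p hp
          have hn : (p - 1) / Q = n := by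
            rw [hn1, Nat.add_sub_cancel, Nat.mul_div_cancel_left _ hQ0]
          rw [Finset.mem_coe, Finset.mem_Ico]
          simp only [hn]
          exact ⟨hn2, hn3⟩
        · intro a ha b hb hab
          obtain ⟨n2, hq1, _, _⟩ := hstr a ha
          obtain ⟨n3, hq2, _, _⟩ := hstr b hb
          simp only at hab
          rw [hq1, hq2, Nat.add_sub_cancel, Nat.add_sub_cancel, Nat.mul_div_cancel_left _ hQ0,
            Nat.mul_div_cancel_left _ hQ0] at hab
          rw [hq1, hq2, hab]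
      rw [Nat.card_Ico, Nat.add_sub_cancel_left] at h2
      exact h2
    have h2 : (1:ℝ) ≤ (2:ℝ) ^ m / Q := by
      rw [le_div_iff₀ hQr, one_mul]
      exact_mod_cast hQm
    have h3 : (G.card : ℝ) ≤ (T : ℝ) + 1 := by exact_mod_cast h1
    calc (G.card : ℝ) ≤ (2:ℝ) ^ m / Q + (2:ℝ) ^ m / Q := by linarith
      _ = _ := by ring
  have hG2 : (G.card : ℝ) ^ 2 ≤ Y := by
    have h1 : (G.card : ℝ) ^ 2 ≤ (2 * 2 ^ m / Q) ^ 2 := by gcongr
    refine h1.trans ?_
    have h2 : Y = ((2:ℝ) ^ m) ^ 3 * Q / ((Nat.totient Q : ℝ) ^ 4 * (m:ℝ) ^ 4) := by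
      rw [hY, hX]
      field_simp
    rw [h2, div_pow, div_le_div_iff₀ (by positivity) (by positivity)]
    have h3 : (Nat.totient Q : ℝ) ^ 4 ≤ (Q:ℝ) ^ 4 := by gcongr
    calc (2 * 2 ^ m) ^ 2 * ((Nat.totient Q : ℝ) ^ 4 * (m:ℝ) ^ 4)
        ≤ (2 * 2 ^ m) ^ 2 * ((Q : ℝ) ^ 4 * (m:ℝ) ^ 4) := by gcongr
      _ = ((2:ℝ) ^ m) ^ 2 * (Q:ℝ) ^ 3 * (4 * Q * (m:ℝ) ^ 4) := by ring
      _ ≤ ((2:ℝ) ^ m) ^ 2 * (Q:ℝ) ^ 3 * 2 ^ m := by gcongr
      _ = ((2:ℝ) ^ m) ^ 3 * Q * (Q:ℝ) ^ 2 := by ring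
  have htotal : (G.card : ℝ) ^ 4 ≤ D.card * (K * Y) := by
    refine hCS.trans ?_
    apply mul_le_mul_of_nonneg_left _ (by positivity)
    calc ∑ s ∈ D, (r s : ℝ) ^ 2 ≤ ∑ s ∈ D, F (s.natAbs / Q) := Finset.sum_le_sum hrF
      _ ≤ ∑ t ∈ Finset.range (T + 1), 2 * F t := hDF
      _ ≤ 2 * (G.card : ℝ) ^ 2 + 2 * 200000 ^ 2 * CC ^ 4 * Y := hFsum
      _ ≤ 2 * Y + 2 * 200000 ^ 2 * CC ^ 4 * Y := by linarith
      _ = K * Y := by rw [hK]; ring
  have hlow : (c₀ * 2 ^ m / (Nat.totient Q * m)) ^ 4 ≤ (G.card : ℝ) ^ 4 := by gcongr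
  have hfin : (c₀ * 2 ^ m / (Nat.totient Q * m)) ^ 4 = c₀ ^ 4 * (2 ^ m / Q) * Y := by
    rw [hY, hX]
    field_simp
  have h9 : c₀ ^ 4 * (2 ^ m / Q) * Y ≤ (D.card * K) * Y := by
    rw [← hfin]
    calc _ ≤ (G.card : ℝ) ^ 4 := hlow
      _ ≤ D.card * (K * Y) := htotal
      _ = _ := by ring
  have h10 : c₀ ^ 4 * (2 ^ m / Q) ≤ D.card * K := le_of_mul_le_mul_right h9 hY0
  calc c₀ ^ 4 / K * 2 ^ m / Q = (c₀ ^ 4 * (2 ^ m / Q)) / K := by ring
    _ ≤ (D.card * K) / K := by gcongr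
    _ = D.card := by field_simp

end Pool.Agent.H75.PS
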