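import Mathlib

/-!
The Selberg upper bound sieve (crude error term), completing Mathlib's `SelbergSieve` file.
-/

set_option autoImplicit false

open Finset ArithmeticFunction
open scoped ArithmeticFunction.Moebius ArithmeticFunction.zeta

namespace Pool.Agent.H75.PS

open BoundingSieve

theorem sum_moebius_divisors (n : ℕ) : ∑ d ∈ n.divisors, (μ d : ℤ) = if n = 1 then 1 else 0 := by
  have h := congrArg (fun f : ArithmeticFunction ℤ => f n) moebius_mul_coe_zeta
  simp only [coe_mul_zeta_apply, one_apply] at h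
  exact h

theorem sum_moebius_between {m l : ℕ} (hm : Squarefree m) (hl : l ∣ m) :
    ∑ d ∈ m.divisors with l ∣ d, (μ d : ℤ) = if l = m then μ l else 0 := by
  have hm0 : m ≠ 0 := hm.ne_zero
  obtain ⟨k, rfl⟩ := hl
  have hl0 : l ≠ 0 := left_ne_zero_of_mul hm0
  have hk0 : k ≠ 0 := right_ne_zero_of_mul hm0
  have h1 : ∑ d ∈ (l * k).divisors with l ∣ d, (μ d : ℤ) = ∑ e ∈ k.divisors, μ (l * e) := by
    symm
    apply Finset.sum_bij (fun e _ => l * e)
    · intro e he
      simp only [Finset.mem_filter, Nat.mem_divisors] at he ⊢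
      exact ⟨⟨Nat.mul_dvd_mul_left l he.1, hm0⟩, Dvd.intro _ rfl⟩
    · intro a _ b _ hab
      exact Nat.eq_of_mul_eq_mul_left (Nat.pos_of_ne_zero hl0) hab
    · intro d hd
      simp only [Finset.mem_filter, Nat.mem_divisors] at hd
      obtain ⟨e, rfl⟩ := hd.2
      refine ⟨e, ?_, rfl⟩
      rw [Nat.mem_divisors]
      exact ⟨Nat.dvd_of_mul_dvd_mul_left (Nat.pos_of_ne_zero hl0) hd.1.1, hk0⟩
    · intro a _
      rfl
  rw [h1]
  have h2 : ∀ e ∈ k.divisors, (μ (l * e) : ℤ) = μ l * μ e := by
    intro e he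
    rw [Nat.mem_divisors] at he
    have hsq : Squarefree (l * e) := hm.squarefree_of_dvd (Nat.mul_dvd_mul_left l he.1)
    exact isMultiplicative_moebius.map_mul_of_coprime (Nat.coprime_of_squarefree_mul hsq)
  rw [Finset.sum_congr rfl h2, ← Finset.mul_sum, sum_moebius_divisors]
  by_cases hk : k = 1
  · simp [hk]
  · have : ¬ (l = l * k) := by
      intro h
      apply hk
      have : l * 1 = l * k := by simpa using h
      exact (Nat.eq_of_mul_eq_mul_left (Nat.pos_of_ne_zero hl0) this).symm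
    simp [hk, this]

/-- The main denominator of the Selberg sieve. -/
noncomputable def SS (s : BoundingSieve) (R : ℕ) : ℝ :=
  ∑ l ∈ s.prodPrimes.divisors with l ≤ R, s.selbergTerms l

/-- Selberg's weights. -/
noncomputable def wt (s : BoundingSieve) (R : ℕ) (d : ℕ) : ℝ :=
  (s.nu d)⁻¹ * (μ d : ℤ) * (SS s R)⁻¹ *
    ∑ l ∈ s.prodPrimes.divisors with (l ≤ R ∧ d ∣ l), s.selbergTerms l

theorem SS_pos (s : BoundingSieve) (R : ℕ) (hR : 1 ≤ R) : 0 < SS s R := by
  apply Finset.sum_pos
  · intro l hl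
    simp only [Finset.mem_filter, Nat.mem_divisors] at hl
    exact selbergTerms_pos hl.1.1
  · refine ⟨1, ?_⟩
    simp only [Finset.mem_filter, Nat.mem_divisors]
    exact ⟨⟨one_dvd _, prodPrimes_ne_zero⟩, hR⟩

theorem wt_one (s : BoundingSieve) (R : ℕ) (hR : 1 ≤ R) : wt s R 1 = 1 := by
  have h := (SS_pos s R hR).ne'
  have h1 : s.nu 1 = 1 := s.nu_mult.1
  unfold wt
  simp only [h1, inv_one, one_mul, moebius_apply_one, Int.cast_one, one_dvd, and_true]
  unfold SS at h ⊢
  exact inv_mul_cancel₀ h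

theorem wt_abs_le (s : BoundingSieve) (R : ℕ) (hR : 1 ≤ R) (d : ℕ) (hd : d ∣ s.prodPrimes) :
    |wt s R d| ≤ (s.nu d)⁻¹ := by
  have hS := SS_pos s R hR
  have hn := nu_pos_of_dvd_prodPrimes hd
  unfold wt
  rw [abs_mul, abs_mul, abs_mul]
  have h1 : |(s.nu d)⁻¹| = (s.nu d)⁻¹ := abs_of_pos (inv_pos.mpr hn)
  have h2 : |((μ d : ℤ) : ℝ)| ≤ 1 := by
    have := abs_moebius_le_one (n := d)
    rw [← Int.cast_abs]
    exact_mod_cast this
  have h3 : |(SS s R)⁻¹| = (SS s R)⁻¹ := abs_of_pos (inv_pos.mpr hS)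
  have h4 : |∑ l ∈ s.prodPrimes.divisors with (l ≤ R ∧ d ∣ l), s.selbergTerms l| ≤ SS s R := by
    rw [abs_of_nonneg]
    · unfold SS
      apply Finset.sum_le_sum_of_subset_of_nonneg
      · intro l hl
        simp only [Finset.mem_filter] at hl ⊢
        exact ⟨hl.1, hl.2.1⟩
      · intro l hl _
        simp only [Finset.mem_filter, Nat.mem_divisors] at hl
        exact (selbergTerms_pos hl.1.1).le
    · apply Finset.sum_nonneg
      intro l hl
      simp only [Finset.mem_filter, Nat.mem_divisors] at hl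
      exact (selbergTerms_pos hl.1.1).le
  rw [h1, h3]
  calc (s.nu d)⁻¹ * |((μ d : ℤ) : ℝ)| * (SS s R)⁻¹ *
        |∑ l ∈ s.prodPrimes.divisors with (l ≤ R ∧ d ∣ l), s.selbergTerms l|
      ≤ (s.nu d)⁻¹ * 1 * (SS s R)⁻¹ * SS s R := by
        gcongr
    _ = (s.nu d)⁻¹ := by field_simp

theorem wt_eq_zero (s : BoundingSieve) (R : ℕ) (d : ℕ) (hd : R < d) : wt s R d = 0 := by
  unfold wt
  rw [Finset.sum_eq_zero, mul_zero]
  intro l hl
  simp only [Finset.mem_filter, Nat.mem_divisors] at hl
  exfalso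
  have hl0 : l ≠ 0 := fun h => hl.1.2 (by simpa [h] using hl.1.1)
  have := Nat.le_of_dvd (Nat.pos_of_ne_zero hl0) hl.2.2
  omega

theorem wt_diag (s : BoundingSieve) (R : ℕ) (l : ℕ) (hl : l ∣ s.prodPrimes) :
    (∑ d ∈ s.prodPrimes.divisors, if l ∣ d then s.nu d * wt s R d else 0) =
      if l ≤ R then (SS s R)⁻¹ * (μ l : ℤ) * s.selbergTerms l else 0 := by
  have hP : s.prodPrimes ≠ 0 := prodPrimes_ne_zero
  have h1 : ∀ d ∈ s.prodPrimes.divisors, (if l ∣ d then s.nu d * wt s R d else 0) =
      ∑ m ∈ s.prodPrimes.divisors with m ≤ R, if (l ∣ d ∧ d ∣ m) then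
        (SS s R)⁻¹ * s.selbergTerms m * (μ d : ℤ) else 0 := by
    intro d hd
    rw [Nat.mem_divisors] at hd
    have hn := nu_pos_of_dvd_prodPrimes hd.1
    by_cases hld : l ∣ d
    · simp only [hld, if_true, true_and]
      unfold wt
      rw [← Finset.sum_filter, Finset.filter_filter]
      rw [Finset.mul_sum, Finset.mul_sum]
      apply Finset.sum_congr rfl
      intro m _
      field_simp
    · simp [hld]
  rw [Finset.sum_congr rfl h1, Finset.sum_comm]
  have h2 : ∀ m ∈ s.prodPrimes.divisors.filter (fun m => m ≤ R),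
      (∑ d ∈ s.prodPrimes.divisors, if (l ∣ d ∧ d ∣ m) then
        (SS s R)⁻¹ * s.selbergTerms m * ((μ d : ℤ) : ℝ) else 0) =
      if l = m then (SS s R)⁻¹ * s.selbergTerms m * ((μ l : ℤ) : ℝ) else 0 := by
    intro m hm
    simp only [Finset.mem_filter, Nat.mem_divisors] at hm
    have hmsq : Squarefree m := squarefree_of_dvd_prodPrimes hm.1.1
    rw [← Finset.sum_filter, ← Finset.mul_sum]
    have h3 : s.prodPrimes.divisors.filter (fun d => l ∣ d ∧ d ∣ m) =
        m.divisors.filter (fun d => l ∣ d) := by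
      ext d
      simp only [Finset.mem_filter, Nat.mem_divisors]
      constructor
      · rintro ⟨_, h1, h2⟩
        exact ⟨⟨h2, hmsq.ne_zero⟩, h1⟩
      · rintro ⟨⟨h1, _⟩, h2⟩
        exact ⟨⟨h1.trans hm.1.1, hP⟩, h2, h1⟩
    rw [h3]
    by_cases hlm : l ∣ m
    · have h4 := sum_moebius_between hmsq hlm
      have h5 : ∑ d ∈ m.divisors with l ∣ d, ((μ d : ℤ) : ℝ) =
          ((if l = m then μ l else 0 : ℤ) : ℝ) := by
        rw [← h4]
        push_cast
        rfl
      rw [h5]
      split_ifs with h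
      · rfl
      · simp
    · have h4 : m.divisors.filter (fun d => l ∣ d) = ∅ := by
        rw [Finset.filter_eq_empty_iff]
        intro d hd hld
        exact hlm (hld.trans (Nat.dvd_of_mem_divisors hd))
      have h5 : l ≠ m := fun h => hlm (h ▸ dvd_rfl)
      rw [h4]
      simp [h5]
  rw [Finset.sum_congr rfl h2, Finset.sum_ite_eq]
  simp only [Finset.mem_filter, Nat.mem_divisors]
  by_cases hlR : l ≤ R
  · rw [if_pos ⟨⟨hl, hP⟩, hlR⟩, if_pos hlR]
    ring
  · rw [if_neg (fun h => hlR h.2), if_neg hlR]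

theorem mainSum_eq (s : BoundingSieve) (R : ℕ) (hR : 1 ≤ R) :
    s.mainSum (lambdaSquared (wt s R)) = (SS s R)⁻¹ := by
  rw [mainSum_lambdaSquared_eq_sum_mul_sum_sq]
  have hS := SS_pos s R hR
  have h1 : ∀ l ∈ s.prodPrimes.divisors, (s.selbergTerms l)⁻¹ *
      (∑ d ∈ s.prodPrimes.divisors, if l ∣ d then s.nu d * wt s R d else 0) ^ 2 =
      if l ≤ R then (SS s R)⁻¹ ^ 2 * s.selbergTerms l else 0 := by
    intro l hl
    rw [Nat.mem_divisors] at hl
    rw [wt_diag s R l hl.1]
    have hg := selbergTerms_pos hl.1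
    split_ifs with h
    · have hμ : ((μ l : ℤ) : ℝ) ^ 2 = 1 := by
        have := moebius_sq_eq_one_of_squarefree (squarefree_of_dvd_prodPrimes hl.1)
        exact_mod_cast this
      calc (s.selbergTerms l)⁻¹ * ((SS s R)⁻¹ * (μ l : ℤ) * s.selbergTerms l) ^ 2
          = (SS s R)⁻¹ ^ 2 * (((μ l : ℤ) : ℝ) ^ 2) *
            ((s.selbergTerms l)⁻¹ * s.selbergTerms l) * s.selbergTerms l := by ring
        _ = (SS s R)⁻¹ ^ 2 * s.selbergTerms l := by
            rw [hμ, inv_mul_cancel₀ hg.ne']
            ring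
    · simp
  rw [Finset.sum_congr rfl h1, ← Finset.sum_filter, ← Finset.mul_sum]
  have : ∑ l ∈ s.prodPrimes.divisors with l ≤ R, s.selbergTerms l = SS s R := rfl
  rw [this, sq, mul_assoc, inv_mul_cancel₀ hS.ne', mul_one]

theorem errSum_le (s : BoundingSieve) (w : ℕ → ℝ) :
    s.errSum (lambdaSquared w) ≤ ∑ d1 ∈ s.prodPrimes.divisors, ∑ d2 ∈ s.prodPrimes.divisors,
      |w d1| * |w d2| * |s.rem (d1.lcm d2)| := by
  have hP : s.prodPrimes ≠ 0 := prodPrimes_ne_zero
  unfold errSum
  calc ∑ d ∈ s.prodPrimes.divisors, |lambdaSquared w d| * |s.rem d|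
      ≤ ∑ d ∈ s.prodPrimes.divisors, ∑ d1 ∈ s.prodPrimes.divisors,
          ∑ d2 ∈ s.prodPrimes.divisors, (if d = d1.lcm d2 then
            |w d1| * |w d2| * |s.rem (d1.lcm d2)| else 0) := by
        apply Finset.sum_le_sum
        intro d hd
        rw [Nat.mem_divisors] at hd
        have hd0 : d ≠ 0 := fun h => hP (by simpa [h] using hd.1)
        have hsub : d.divisors ⊆ s.prodPrimes.divisors := by
          intro x hx
          rw [Nat.mem_divisors] at hx ⊢
          exact ⟨hx.1.trans hd.1, hP⟩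
        unfold lambdaSquared
        calc |∑ d1 ∈ d.divisors, ∑ d2 ∈ d.divisors,
              if d = Nat.lcm d1 d2 then w d1 * w d2 else 0| * |s.rem d|
            ≤ (∑ d1 ∈ d.divisors, ∑ d2 ∈ d.divisors,
              |if d = Nat.lcm d1 d2 then w d1 * w d2 else 0|) * |s.rem d| := by
              gcongr
              refine (Finset.abs_sum_le_sum_abs _ _).trans ?_
              apply Finset.sum_le_sum
              intro d1 _
              exact Finset.abs_sum_le_sum_abs _ _
          _ = ∑ d1 ∈ d.divisors, ∑ d2 ∈ d.divisors, (if d = d1.lcm d2 then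
            |w d1| * |w d2| * |s.rem (d1.lcm d2)| else 0) := by
              rw [Finset.sum_mul]
              apply Finset.sum_congr rfl
              intro d1 _
              rw [Finset.sum_mul]
              apply Finset.sum_congr rfl
              intro d2 _
              split_ifs with h
              · rw [abs_mul, ← h]
              · simp
          _ ≤ _ := by
              refine (Finset.sum_le_sum_of_subset_of_nonneg hsub ?_).trans ?_
              · intro x _ _
                apply Finset.sum_nonneg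
                intro y _
                split_ifs
                · positivity
                · exact le_rfl
              · apply Finset.sum_le_sum
                intro x _
                apply Finset.sum_le_sum_of_subset_of_nonneg hsub
                intro y _ _
                split_ifs
                · positivity
                · exact le_rfl
    _ = _ := by
        rw [Finset.sum_comm]
        apply Finset.sum_congr rfl
        intro d1 hd1
        rw [Finset.sum_comm]
        apply Finset.sum_congr rfl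
        intro d2 hd2
        rw [Nat.mem_divisors] at hd1 hd2
        rw [Finset.sum_ite_eq' , if_pos]
        rw [Nat.mem_divisors]
        exact ⟨Nat.lcm_dvd hd1.1 hd2.1, hP⟩

/-- **Selberg's upper bound sieve** with a crude error term. -/
theorem selberg_bound (s : BoundingSieve) (R : ℕ) (hR : 1 ≤ R) :
    s.siftedSum ≤ s.totalMass * (SS s R)⁻¹ +
      ∑ d1 ∈ s.prodPrimes.divisors with d1 ≤ R, ∑ d2 ∈ s.prodPrimes.divisors with d2 ≤ R,
        (s.nu d1)⁻¹ * (s.nu d2)⁻¹ * |s.rem (d1.lcm d2)| := by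
  have h1 := siftedSum_le_mainSum_errSum_of_upperMoebius (s := s) _
    (upperMoebius_lambdaSquared (wt s R) (wt_one s R hR))
  rw [mainSum_eq s R hR] at h1
  refine h1.trans ?_
  gcongr
  refine (errSum_le s (wt s R)).trans ?_
  have h2 : ∀ d1 ∈ s.prodPrimes.divisors, ∑ d2 ∈ s.prodPrimes.divisors,
      |wt s R d1| * |wt s R d2| * |s.rem (d1.lcm d2)| ≤
      if d1 ≤ R then ∑ d2 ∈ s.prodPrimes.divisors with d2 ≤ R,
        (s.nu d1)⁻¹ * (s.nu d2)⁻¹ * |s.rem (d1.lcm d2)| else 0 := by
    intro d1 hd1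
    rw [Nat.mem_divisors] at hd1
    split_ifs with h
    · rw [Finset.sum_filter]
      apply Finset.sum_le_sum
      intro d2 hd2
      rw [Nat.mem_divisors] at hd2
      split_ifs with h'
      · have a1 := wt_abs_le s R hR d1 hd1.1
        have a2 := wt_abs_le s R hR d2 hd2.1
        have a3 : (0:ℝ) ≤ (s.nu d1)⁻¹ := (inv_pos.mpr (nu_pos_of_dvd_prodPrimes hd1.1)).le
        gcongr
      · rw [wt_eq_zero s R d2 (not_le.mp h')]
        simp
    · rw [wt_eq_zero s R d1 (not_le.mp h)]
      simp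
  refine (Finset.sum_le_sum h2).trans ?_
  rw [← Finset.sum_filter]

end Pool.Agent.H75.PS
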